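import Pool.Agent.H511.Ex.Tw1
import Pool.Graph.R_pool_sql_team_seeded_63374d34.N784.TD
import Pool.Graph.R_seed8.R399.TW.Fam

/-!
# The twisted L-function of a linear character of a subgroup belongs to a family of Hecke L-functions
-/

set_option autoImplicit false
set_option linter.unusedSectionVars false

namespace Pool.Agent.H511.Ex

open NumberField IsDedekindDomain Filter Topology Pool.Agent.H921R2.TatePole Pool.Agent.W353.NF
  Pool.Agent.Q5.BR Pool.Agent.H541R3.ART Pool.Agent.Q92.AR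
open Pool.Agent.Q92.RT (induced induced_conj induced_pair class_expand)
open Pool.Agent.Q84.AR (psi psi_apply hasSum_dbl dv dv_span dv_prime cop_v)

section
variable {F : Type} [Field F] [NumberField F]

/-- a Hecke L-function as an Euler product -/
theorem LI_eq_LP {ψ : Ideal (𝓞 F) →*₀ ℂ} (hψ : ∀ 𝔞, ‖ψ 𝔞‖ ≤ 1) {s : ℂ} (hs : 1 < s.re) :
    Pool.Agent.Y773.LI ψ s = LP (Set.univ : Set (HeightOneSpectrum (𝓞 F)))
      (fun v => ψ v.asIdeal) s := by
  classical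
  rw [Pool.Agent.Y772.DK.LI_eq_exp _ hψ hs, ← (hasSum_dbl hψ hs).tsum_eq]
  unfold LP
  congr 1
  refine tsum_congr fun x => ?_
  unfold lterm
  rw [if_pos (Set.mem_univ _)]

open Pool.Agent.Y773 in
theorem isPrimChar {𝔣 : Ideal (𝓞 F)} {e : InfinitePlace F → ℕ} {ψ : Ideal (𝓞 F) →*₀ ℂ}
    (ne_bot : 𝔣 ≠ ⊥) (e_complex : ∀ w : InfinitePlace F, w.IsComplex → e w = 0)
    (supp : ∀ 𝔞 : Ideal (𝓞 F), 𝔞 ≠ ⊥ → (ψ 𝔞 ≠ 0 ↔ IsCoprime 𝔞 𝔣))
    (sig : ∀ x : 𝓞 F, x ≠ 0 → x - 1 ∈ 𝔣 → ψ (Ideal.span {x}) =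
      ∏ w : InfinitePlace F, (((SignType.sign (w.embedding (x : F)).re : SignType) : ℤ) : ℂ) ^ e w)
    (prim : ∀ 𝔤 : Ideal (𝓞 F), 𝔤 ∣ 𝔣 → 𝔤 ≠ 𝔣 → ∃ x : 𝓞 F, x - 1 ∈ 𝔤 ∧ Pos (x : F) ∧
      IsCoprime (Ideal.span {x}) 𝔣 ∧ ψ (Ideal.span {x}) ≠ 1) :
    G.IsPrimChar F 𝔣 ψ := by
  classical
  have hsg : ∀ x : F, G.sg e x =
      ∏ w : InfinitePlace F, (((SignType.sign (w.embedding x).re : SignType) : ℤ) : ℂ) ^ e w := by
    intro x
    unfold G.sg
    refine Finset.prod_congr rfl fun w _ => ?_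
    rcases w.isReal_or_isComplex with hw | hw
    · rw [G.rl_of_isReal hw]
    · rw [e_complex w hw, pow_zero, pow_zero]
  have hsig : ∀ x : 𝓞 F, x ≠ 0 → x - 1 ∈ 𝔣 → ψ (Ideal.span {x}) = G.sg e (x : F) := by
    intro x h0 h1
    rw [sig x h0 h1, hsg]
  have hray : ∀ x : 𝓞 F, x ≠ 0 → x - 1 ∈ 𝔣 → TPos F x → ψ (Ideal.span {x}) = 1 := by
    intro x h0 h1 h2
    rw [hsig x h0 h1, G.sg_TPos e h0 h2]
  exact ⟨ne_bot, supp, hray, prim⟩

/-- a ray class character is induced by a primitive one -/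
theorem exists_prim {N : ℕ} (hN : N ≠ 0) {χ : Dv F →+ Additive ℂˣ}
    (hχ : ∀ x ∈ Ray F N, χ (prin x) = 0) :
    ∃ (𝔣 : Ideal (𝓞 F)) (ψ : Ideal (𝓞 F) →*₀ ℂ), Pool.Agent.Y773.G.IsPrimChar F 𝔣 ψ ∧
      ∀ v : HeightOneSpectrum (𝓞 F), (N : 𝓞 F) ∉ v.asIdeal →
        ψ v.asIdeal = (((χ (Finsupp.single v 1)).toMul : ℂˣ) : ℂ) := by
  classical
  obtain ⟨𝔪, h𝔪⟩ : ∃ 𝔪 : Ideal (𝓞 F), 𝔪 = Ideal.span {(N : 𝓞 F)} := ⟨_, rfl⟩
  have hm0 : 𝔪 ≠ ⊥ := by
    rw [h𝔪, Ne, Ideal.span_singleton_eq_bot]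
    exact_mod_cast hN
  have hpsi : ∀ 𝔞, psi N χ 𝔞 = if 𝔞 ≠ ⊥ ∧ IsCoprime 𝔞 𝔪 then
      (((χ (dv 𝔞)).toMul : ℂˣ) : ℂ) else 0 := by
    intro 𝔞
    rw [psi_apply, h𝔪]
  obtain ⟨𝔣, e, ψ', hdvd, hne, hele, hecx, hsupp, hsig, hprim, heq⟩ :=
      Pool.Agent.Q264.AR.prim F 𝔪 (psi N χ) hm0 (by
    intro 𝔞 h0
    rw [hpsi]
    constructor
    · intro h
      by_contra h1
      exact h (if_neg fun h2 => h1 h2.2)
    · intro h
      rw [if_pos ⟨h0, h⟩]
      exact Units.ne_zero _) (by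
    intro x hx0 hx1 hxp
    have hx0F : (x : F) ≠ 0 := by
      intro h
      exact hx0 (by exact_mod_cast h)
    have h1 : IsCoprime (Ideal.span {x}) 𝔪 := by
      rw [Ideal.isCoprime_iff_exists]
      refine ⟨x, Ideal.mem_span_singleton_self _, -(x - 1), 𝔪.neg_mem hx1, by ring⟩
    rw [hpsi, if_pos ⟨by rwa [Ne, Ideal.span_singleton_eq_bot], h1⟩,
      dv_span (Units.mk0 (x : F) hx0F) rfl, hχ]
    · rfl
    · refine ⟨?_, ?_⟩
      · intro v hv
        rw [Units.val_mk0]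
        rw [h𝔪] at hx1
        obtain ⟨c, hc⟩ := Ideal.mem_span_singleton.1 hx1
        have h2 : (x : F) - 1 = (N : F) * (c : F) := by
          have := congrArg (algebraMap (𝓞 F) F) hc
          rw [map_sub, map_one, map_mul, map_natCast] at this
          exact this
        rw [h2, map_mul]
        calc v.valuation F (N : F) * v.valuation F (c : F) ≤ v.valuation F (N : F) * 1 :=
              mul_le_mul' le_rfl (v.valuation_le_one _)
          _ = _ := mul_one _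
      · rw [Units.val_mk0]
        exact hxp)
  refine ⟨𝔣, ψ', isPrimChar hne hecx hsupp hsig hprim, fun v hv => ?_⟩
  have hc : IsCoprime v.asIdeal 𝔪 := by
    rw [h𝔪]
    exact (cop_v N v).2 hv
  rw [heq _ hc, hpsi, if_pos ⟨v.ne_bot, hc⟩, dv_prime]

end

/-- what is used about the twists of a linear character: a family of entire functions with the density
theorems, which are the twisted L-functions up to Euler factors -/
def HasFam {K : Type} [Field K] [NumberField K] (M : Type) [Field M] [NumberField M] [Algebra K M]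
    (φ : (M ≃ₐ[K] M) → ℂ) (m N : ℕ) (L : (q : ℕ) → DirichletCharacter ℂ q → ℂ → ℂ) : Prop :=
  N ≠ 0 ∧ Pool.Agent.R399.TW.Fm m N L ∧ ∀ (q : ℕ) (ξ : DirichletCharacter ℂ q), 2 ≤ q →
    Nat.Coprime q N → ξ.IsPrimitive →
      Differentiable ℂ (L q ξ) ∧ Cmp (twL M (dirW K ξ) φ) (L q ξ)

section
variable {K F M : Type} [Field K] [NumberField K] [Field F] [NumberField F] [Field M] [NumberField M]
  [Algebra K F] [Algebra K M] [Algebra F M] [IsScalarTower K F M] [IsGalois K M] [IsGalois F M]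

theorem fam_field (ψ : fixer K F M →* ℂˣ) :
    ∃ (N : ℕ) (L : (q : ℕ) → DirichletCharacter ℂ q → ℂ → ℂ),
      HasFam M (induced (fixer K F M) ψ) (Module.finrank ℚ F) N L := by
  set ψ' : (M ≃ₐ[F] M) →* ℂˣ := ψ.comp (resF K F M) with hψ'
  obtain ⟨N, hN, hRam, hray⟩ := recip F M ψ'
  obtain ⟨𝔣, φ, hφ, hval⟩ := exists_prim hN hray
  obtain ⟨L, hL⟩ := Pool.Agent.N784.TD.exists_L hφ
  have hφn := hφ.norm_le_one Pool.Agent.Y772.G.t_sig
  refine ⟨Ideal.absNorm 𝔣 * (discr F).natAbs, L, ?_, Pool.Agent.N784.TD.fam_ray hφ hL, ?_⟩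
  · refine mul_ne_zero ?_ ?_
    · rw [Ne, Ideal.absNorm_eq_zero_iff]
      exact hφ.ne_bot
    · rw [Ne, Int.natAbs_eq_zero]
      exact discr_ne_zero F
  intro q ξ hq hqN hξ
  obtain ⟨h1, h2⟩ := hL q ξ hq hqN hξ
  refine ⟨h1, ?_⟩
  have hval' : ∀ v : HeightOneSpectrum (𝓞 F), (N : 𝓞 F) ∉ v.asIdeal →
      φ v.asIdeal = ((ψ' (frob M v) : ℂˣ) : ℂ) := by
    intro v hv
    rw [hval v hv, art_single, one_smul]
    rfl
  have htw : ∀ 𝔞, ‖Pool.Agent.Y773.tw φ ξ 𝔞‖ ≤ 1 := by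
    intro 𝔞
    change ‖φ 𝔞 * ξ ((Ideal.absNorm 𝔞 : ℕ) : ZMod q)‖ ≤ 1
    rw [norm_mul]
    exact mul_le_one₀ (hφn 𝔞) (norm_nonneg _) (DirichletCharacter.norm_le_one ξ _)
  have hB : ∀ v : HeightOneSpectrum (𝓞 F), ‖((ψ' (frob M v) : ℂˣ) : ℂ) * dirW F ξ v‖ ≤ 1 := by
    intro v
    rw [norm_mul, norm_char ψ', one_mul]
    exact norm_dirW ξ v
  -- the three Euler products
  have c1 : Cmp (twL M (dirW K ξ) (induced (fixer K F M) ψ))
      (LP {w : HeightOneSpectrum (𝓞 F) | Unramified M (w.under (𝓞 K))}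
        (fun w => ((ψ' (frob M w) : ℂˣ) : ℂ) * dirW F ξ w)) := by
    refine Cmp.of_eq fun s hs => ?_
    rw [twL_induced (norm_dirW ξ) ψ ψ' (fun y hy => rfl) hs]
    congr 1
    funext w
    rw [dirW_under]
  have c2 : Cmp (LP {w : HeightOneSpectrum (𝓞 F) | Unramified M (w.under (𝓞 K))}
        (fun w => ((ψ' (frob M w) : ℂˣ) : ℂ) * dirW F ξ w))
      (LP {v : HeightOneSpectrum (𝓞 F) | (N : 𝓞 F) ∉ v.asIdeal}
        (fun v => Pool.Agent.Y773.tw φ ξ v.asIdeal)) := by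
    refine LP_compare ?_ ?_ hB (fun v => htw _) ?_
    · refine (mem_finite (F := F) hN).subset ?_
      rintro w ⟨-, hw⟩
      exact not_not.1 hw
    · refine (ramified_above_finite (K := K) (F := F) (M := M)).subset ?_
      rintro w ⟨-, hw⟩
      exact hw
    · rintro v ⟨-, hv⟩
      change _ = φ v.asIdeal * ξ ((Ideal.absNorm v.asIdeal : ℕ) : ZMod q)
      rw [hval' v hv]
      rfl
  have c3 : Cmp (LP {v : HeightOneSpectrum (𝓞 F) | (N : 𝓞 F) ∉ v.asIdeal}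
        (fun v => Pool.Agent.Y773.tw φ ξ v.asIdeal))
      (LP (Set.univ : Set (HeightOneSpectrum (𝓞 F)))
        (fun v => Pool.Agent.Y773.tw φ ξ v.asIdeal)) := by
    refine LP_compare ?_ ?_ (fun v => htw _) (fun v => htw _) (fun v _ => rfl)
    · refine Set.Finite.subset Set.finite_empty ?_
      rintro w ⟨-, hw⟩
      exact (hw (Set.mem_univ _)).elim
    · refine (mem_finite (F := F) hN).subset ?_
      rintro w ⟨-, hw⟩
      exact not_not.1 hw
  refine c1.trans (c2.trans (c3.trans (Cmp.of_eq fun s hs => ?_)))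
  rw [h2 s hs, LI_eq_LP htw hs]

end

section
variable {K M : Type} [Field K] [NumberField K] [Field M] [NumberField M] [Algebra K M]
  [IsGalois K M]

theorem finrank_fixed (H : Subgroup (M ≃ₐ[K] M)) :
    Module.finrank ℚ (IntermediateField.fixedField H) = H.index * Module.finrank ℚ K := by
  have h1 := Module.finrank_mul_finrank ℚ K (IntermediateField.fixedField H)
  rw [← h1, IntermediateField.finrank_eq_fixingSubgroup_index,
    IntermediateField.fixingSubgroup_fixedField, mul_comm]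

/-- **The twists of a linear character of a subgroup** are a family of Hecke L-functions. -/
theorem fam (H : Subgroup (M ≃ₐ[K] M)) (ψ : H →* ℂˣ) :
    ∃ (N : ℕ) (L : (q : ℕ) → DirichletCharacter ℂ q → ℂ → ℂ),
      HasFam M (induced H ψ) (H.index * Module.finrank ℚ K) N L := by
  have h := fixer_fixedField (K := K) (M := M) H
  have hgal : IsGalois (IntermediateField.fixedField H) M := inferInstance
  let ψ1 : fixer K (IntermediateField.fixedField H) M →* ℂˣ :=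
    ψ.comp (Subgroup.inclusion (le_of_eq h))
  have h2 : induced (fixer K (IntermediateField.fixedField H) M) ψ1 = induced H ψ :=
    induced_congr h fun x hx hx' => rfl
  rw [← h2, ← finrank_fixed]
  exact fam_field ψ1

end

end Pool.Agent.H511.Ex
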