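import Pool.Agent.H511.Ex.Tw2

/-!
# Heilbronn's argument for the twists
-/

set_option autoImplicit false
set_option linter.unusedSectionVars false

namespace Pool.Agent.H511.Ex

open NumberField IsDedekindDomain Filter Topology Pool.Agent.H921R2.TatePole Pool.Agent.W353.NF
  Pool.Agent.Q5.BR Pool.Agent.H541R3.ART Pool.Agent.Q92.AR Pool.Agent.H302R2
open Pool.Agent.Q92.RT (induced induced_conj induced_pair class_expand)

/-- `n` detects: a Heilbronn function which is orthogonal to all linear characters of all subgroups of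
index at most `n` is zero -/
def Detects (G : Type) [Group G] (n : ℕ) : Prop :=
  ∀ θ : G → ℂ, IsHeilbronn θ → (∀ (H : Subgroup G) (ψ : H →* ℂˣ), H.index ≤ n →
    ∑ᶠ h : H, θ h * (((ψ h)⁻¹ : ℂˣ) : ℂ) = 0) → ∀ g, θ g = 0

section
variable {K M : Type} [Field K] [NumberField K] [Field M] [NumberField M] [Algebra K M]
  [IsGalois K M]

/-- the twisted L-functions of all linear characters of subgroups are entire up to Euler factors -/
def AllLin (M : Type) [Field M] [NumberField M] [Algebra K M] (ω : HeightOneSpectrum (𝓞 K) → ℂ)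
    (f : (H : Subgroup (M ≃ₐ[K] M)) → (H →* ℂˣ) → ℂ → ℂ) : Prop :=
  ∀ H ψ, Differentiable ℂ (f H ψ) ∧ Cmp (twL M ω (induced H ψ)) (f H ψ)

variable {ω : HeightOneSpectrum (𝓞 K) → ℂ} {f : (H : Subgroup (M ≃ₐ[K] M)) → (H →* ℂˣ) → ℂ → ℂ}

theorem continues_lin (hf : AllLin M ω f) (H : Subgroup (M ≃ₐ[K] M)) (ψ : H →* ℂˣ) :
    ∃ g : ℂ → ℂ, Continues g (twL M ω (induced H ψ)) ∧ ∀ s : ℂ, 0 < s.re → AnalyticAt ℂ g s := by
  obtain ⟨h1, E, h2, h3, h4⟩ := hf H ψ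
  refine ⟨fun s => E s * f H ψ s, ⟨fun s hs => (h2 s hs).fun_mul (h1.analyticAt s).meromorphicAt,
    fun s hs => (h3 s hs).symm⟩, fun s hs => (h4 s hs).1.fun_mul (h1.analyticAt s)⟩

theorem tw_continues (hω : ∀ v, ‖ω v‖ ≤ 1) (hf : AllLin M ω f) {χ : (M ≃ₐ[K] M) → ℂ}
    (hχ : χ ∈ Irr (M ≃ₐ[K] M)) :
    ∃ g : ℂ → ℂ, Continues g (twL M ω χ) := by
  obtain ⟨ι, _, H, ψ, n, h⟩ := brauer _ χ hχ
  choose g hg _ using fun i => continues_lin hf (H i) (ψ i)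
  refine ⟨fun s => ∏ i, g i s ^ n i, fun s hs => ?_, fun s hs => ?_⟩
  · exact MeromorphicAt.fun_prod fun i _ => ((hg i).1 s hs).fun_zpow _
  · have h1 : χ = fun g => ∑ i, (n i : ℂ) * induced (H i) (ψ i) g := funext h
    rw [h1, twL_sum_int hω Finset.univ n (fun i => induced (H i) (ψ i)) hs]
    exact Finset.prod_congr rfl fun i _ => by rw [(hg i).2 s hs]

theorem twL_analytic (hω : ∀ v, ‖ω v‖ ≤ 1) (hf : AllLin M ω f) {χ : (M ≃ₐ[K] M) → ℂ}
    (hχ : χ ∈ Irr (M ≃ₐ[K] M)) {s : ℂ} (hs : 1 < s.re) : AnalyticAt ℂ (twL M ω χ) s := by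
  obtain ⟨ι, _, H, ψ, n, h⟩ := brauer _ χ hχ
  choose g hg hg2 using fun i => continues_lin hf (H i) (ψ i)
  have hopen : IsOpen {s : ℂ | 1 < s.re} := isOpen_lt continuous_const Complex.continuous_re
  have hev : ∀ᶠ z in 𝓝 s, z ∈ {s : ℂ | 1 < s.re} := hopen.mem_nhds hs
  have h1 : χ = fun g => ∑ i, (n i : ℂ) * induced (H i) (ψ i) g := funext h
  have h2 : twL M ω χ =ᶠ[𝓝 s] fun z => ∏ i, g i z ^ n i := by
    filter_upwards [hev] with z hz
    rw [h1, twL_sum_int hω Finset.univ n (fun i => induced (H i) (ψ i)) hz]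
    exact Finset.prod_congr rfl fun i _ => by rw [(hg i).2 z hz]
  refine AnalyticAt.congr ?_ h2.symm
  refine Finset.analyticAt_fun_prod _ fun i _ => (hg2 i s (by linarith)).fun_zpow ?_
  rw [(hg i).2 s hs]
  exact twL_ne_zero _ _ _

/-- the L-function of an induced character is a product -/
theorem twL_induced_prod (hω : ∀ v, ‖ω v‖ ≤ 1) (H : Subgroup (M ≃ₐ[K] M)) (ψ : H →* ℂˣ)
    {m : ((M ≃ₐ[K] M) → ℂ) → ℕ}
    (hm : ∀ χ ∈ Irr (M ≃ₐ[K] M), ∑ᶠ h : H, χ h * (((ψ h)⁻¹ : ℂˣ) : ℂ) =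
      (m χ : ℂ) * (Nat.card H : ℂ)) {s : ℂ} (hs : 1 < s.re) :
    twL M ω (induced H ψ) s = ∏ χ ∈ irrF (M ≃ₐ[K] M), twL M ω χ s ^ m χ := by
  have : Fintype (M ≃ₐ[K] M) := Fintype.ofFinite _
  have h1 := twL_sum_int hω (irrF (M ≃ₐ[K] M)) (fun χ => (m χ : ℤ)) (fun χ => χ) hs
  have h2 : (fun g => ∑ i ∈ irrF (M ≃ₐ[K] M), (((m i : ℕ) : ℤ) : ℂ) * i g) = induced H ψ := by
    funext g
    refine (class_expand (m := fun χ => (((m χ : ℕ) : ℤ) : ℂ)) (fun g x => induced_conj H ψ g x)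
      (fun χ hχ => ?_) g).symm
    rw [Int.cast_natCast]
    exact induced_pair H ψ (fun g x => Irr.conj hχ g x) (hm χ hχ)
  rw [h2] at h1
  rw [h1]
  exact Finset.prod_congr rfl fun χ _ => zpow_natCast _ _

/-- **The twisted Artin L-functions form an `ArtinData`.** -/
noncomputable def twData (hω : ∀ v, ‖ω v‖ ≤ 1) (hf : AllLin M ω f) {s₀ : ℂ} (h0 : 0 < s₀.re) :
    ArtinData (M ≃ₐ[K] M) s₀ where
  L χ := cont (twL M ω χ)
  Lin H ψ := cont (twL M ω (induced H ψ))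
  mero χ hχ :=
    ⟨(cont_spec (tw_continues hω hf hχ)).1 s₀ (Set.mem_univ _),
      (cont_spec (tw_continues hω hf hχ)).order_ne_top (fun s _ => twL_ne_zero ω χ s) s₀⟩
  hecke H ψ := by
    obtain ⟨g, hg, hg2⟩ := continues_lin hf H ψ
    rw [(cont_spec ⟨g, hg⟩).order_eq hg (fun _ _ => rfl) s₀]
    exact (hg2 s₀ h0).meromorphicOrderAt_nonneg
  induce H ψ m hm := by
    obtain ⟨g, hg, hg2⟩ := continues_lin hf H ψ
    have hp : Continues (fun s => ∏ χ ∈ irrF (M ≃ₐ[K] M), cont (twL M ω χ) s ^ m χ)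
        (twL M ω (induced H ψ)) := by
      refine ⟨fun s hs => ?_, fun s hs => ?_⟩
      · exact MeromorphicAt.fun_prod fun χ hχ =>
          ((cont_spec (tw_continues hω hf (mem_irrF.1 hχ))).1 s hs).fun_pow _
      · rw [twL_induced_prod hω H ψ hm hs]
        exact Finset.prod_congr rfl fun χ hχ => by
          rw [(cont_spec (tw_continues hω hf (mem_irrF.1 hχ))).2 s hs]
    have h1 := (cont_spec ⟨g, hg⟩).eventuallyEq hp (fun _ _ => rfl) s₀
    filter_upwards [h1] with s hs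
    rw [hs, finprod_mem_eq_finite_toFinset_prod _ (irr_finite (G := M ≃ₐ[K] M))]
    rfl

/-- **Heilbronn's argument**: if the L-functions of the linear characters of the subgroups of index at
most `n` have no zero at `s₀`, all twisted L-functions have order `0` at `s₀`. -/
theorem tw_order (hω : ∀ v, ‖ω v‖ ≤ 1) (hf : AllLin M ω f) {s₀ : ℂ} (h0 : 0 < s₀.re) {n : ℕ}
    (hn : Detects (M ≃ₐ[K] M) n)
    (hne : ∀ (H : Subgroup (M ≃ₐ[K] M)) (ψ : H →* ℂˣ), H.index ≤ n → f H ψ s₀ ≠ 0)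
    {χ : (M ≃ₐ[K] M) → ℂ} (hχ : χ ∈ Irr (M ≃ₐ[K] M)) :
    meromorphicOrderAt (cont (twL M ω χ)) s₀ = 0 := by
  have fG : Fintype (M ≃ₐ[K] M) := Fintype.ofFinite _
  set A := twData hω hf h0 with hA
  have hz : ∀ g, (theta A.ord : (M ≃ₐ[K] M) → ℂ) g = 0 := by
    refine hn _ A.isHeilbronn fun H ψ hH => ?_
    classical
    choose! m hm using fun χ (hχ : χ ∈ Irr (M ≃ₐ[K] M)) => exists_mult hχ H ψ
    rw [theta_mult A.ord H ψ m hm]
    have h1 := A.order_Lin H ψ m hm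
    have h2 : meromorphicOrderAt (A.Lin H ψ) s₀ = 0 := by
      obtain ⟨h3, h4⟩ := hf H ψ
      obtain ⟨g, hg, -⟩ := continues_lin hf H ψ
      have h5 : Continues (f H ψ) (f H ψ) :=
        ⟨fun s _ => (h3.analyticAt s).meromorphicAt, fun _ _ => rfl⟩
      have h6 := h4.order (cont_spec ⟨g, hg⟩) h5 h0
      have h7 : meromorphicOrderAt (f H ψ) s₀ = 0 := by
        rw [(h3.analyticAt s₀).meromorphicOrderAt_eq,
          (h3.analyticAt s₀).analyticOrderAt_eq_zero.2 (hne H ψ hH)]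
        rfl
      rw [h7] at h6
      exact h6
    rw [h2] at h1
    have h3 : (∑ χ ∈ irrF (M ≃ₐ[K] M), (m χ : ℤ) * A.ord χ : ℤ) = 0 := by
      have h4 : ((0 : ℤ) : WithTop ℤ) =
        ((∑ χ ∈ irrF (M ≃ₐ[K] M), (m χ : ℤ) * A.ord χ : ℤ) : WithTop ℤ) := h1
      exact (WithTop.coe_injective h4).symm
    rw [h3]
    simp
  have h1 := A.order_eq hχ (k := 0) (by
    rw [Finset.sum_eq_zero fun g _ => by rw [hz g, zero_mul]]
    simp)
  exact h1

/-- the twisted L-function in normal form -/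
noncomputable def TL (M : Type) [Field M] [NumberField M] [Algebra K M]
    (ω : HeightOneSpectrum (𝓞 K) → ℂ) (χ : (M ≃ₐ[K] M) → ℂ) : ℂ → ℂ :=
  toMeromorphicNFOn (cont (twL M ω χ)) Set.univ

theorem TL_mero (χ : (M ≃ₐ[K] M) → ℂ) : MeromorphicOn (TL M ω χ) Set.univ :=
  (meromorphicNFOn_toMeromorphicNFOn _ _).meromorphicOn

theorem TL_eq (hω : ∀ v, ‖ω v‖ ≤ 1) (hf : AllLin M ω f) {χ : (M ≃ₐ[K] M) → ℂ}
    (hχ : χ ∈ Irr (M ≃ₐ[K] M)) {s : ℂ} (hs : 1 < s.re) :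
    TL M ω χ s = twL M ω χ s := by
  have hc := cont_spec (tw_continues hω hf hχ)
  have hopen : IsOpen {s : ℂ | 1 < s.re} := isOpen_lt continuous_const Complex.continuous_re
  have hev : ∀ᶠ z in 𝓝 s, z ∈ {s : ℂ | 1 < s.re} := hopen.mem_nhds hs
  have h1 : cont (twL M ω χ) =ᶠ[𝓝 s] twL M ω χ := by
    filter_upwards [hev] with z hz
    exact hc.2 z hz
  have h2 : AnalyticAt ℂ (cont (twL M ω χ)) s := (twL_analytic hω hf hχ hs).congr h1.symm
  unfold TL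
  rw [toMeromorphicNFOn_eq_toMeromorphicNFAt hc.1 (Set.mem_univ s),
    toMeromorphicNFAt_eq_self.2 h2.meromorphicNFAt, hc.2 s hs]

theorem TL_regular (hω : ∀ v, ‖ω v‖ ≤ 1) (hf : AllLin M ω f) {s₀ : ℂ} (h0 : 0 < s₀.re) {n : ℕ}
    (hn : Detects (M ≃ₐ[K] M) n)
    (hne : ∀ (H : Subgroup (M ≃ₐ[K] M)) (ψ : H →* ℂˣ), H.index ≤ n → f H ψ s₀ ≠ 0)
    {χ : (M ≃ₐ[K] M) → ℂ} (hχ : χ ∈ Irr (M ≃ₐ[K] M)) :
    AnalyticAt ℂ (TL M ω χ) s₀ ∧ TL M ω χ s₀ ≠ 0 := by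
  have hc := cont_spec (tw_continues hω hf hχ)
  have h1 : meromorphicOrderAt (TL M ω χ) s₀ = 0 := by
    unfold TL
    rw [meromorphicOrderAt_toMeromorphicNFOn hc.1 (Set.mem_univ s₀)]
    exact tw_order hω hf h0 hn hne hχ
  have h2 : MeromorphicNFAt (TL M ω χ) s₀ :=
    (meromorphicNFOn_toMeromorphicNFOn _ _) (Set.mem_univ s₀)
  have h3 : AnalyticAt ℂ (TL M ω χ) s₀ := h2.meromorphicOrderAt_nonneg_iff_analyticAt.1 h1.ge
  exact ⟨h3, h2.meromorphicOrderAt_eq_zero_iff.1 h1⟩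

end

end Pool.Agent.H511.Ex
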