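import Pool.Agent.H511.Ex.Main
import Pool.Graph.R_seed8.W446.AS.Two

/-!
# The zeros of the zeta function of the base field

`L/K` is a Galois extension of number fields whose Artin L-functions have no poles and nearly
proportional zeros. All zeros of the zeta function of `L` are zeros of the zeta function of `K`.
-/

set_option autoImplicit false
set_option linter.unusedSectionVars false

namespace Pool.Agent.H511.Ex

open NumberField IsDedekindDomain Filter Topology Pool.Agent.H921R2.TatePole Pool.Agent.W353.NF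
  Pool.Agent.Q5.BR Pool.Agent.H302R2 Pool.Agent.H541R3.ART Pool.Agent.W446.AS Pool.Agent.Q92.AR
  Pool.Agent.Y786.FR Equiv
open Pool.Agent.Q92.RT (induced)

section chars
variable {G : Type} [Group G] [Finite G]

theorem irr_heilbronn {χ : G → ℂ} (hχ : χ ∈ Irr G) : IsHeilbronn χ :=
  ⟨fun g h => Irr.conj hχ g h, fun H ψ => exists_mult hχ H ψ⟩

theorem sum_norm_sq [Fintype G] {χ : G → ℂ} (hχ : χ ∈ Irr G) :
    ∑ g : G, ‖χ g‖ ^ 2 = Nat.card G := by
  have h := pair_self hχ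
  have h1 : ∀ g : G, χ g * χ g⁻¹ = ((‖χ g‖ ^ 2 : ℝ) : ℂ) := by
    intro g
    rw [heilbronn_star (irr_heilbronn hχ) g]
    push_cast
    exact Complex.mul_conj' (χ g)
  rw [Finset.sum_congr rfl fun g _ => h1 g, ← Complex.ofReal_sum] at h
  exact_mod_cast h

/-- Heilbronn: the multiplicities of a Heilbronn function are at most its degree -/
theorem mult_le [Fintype G] {θ : G → ℂ} (hθ : IsHeilbronn θ) {r : ℕ} (hr : θ 1 = r) {χ : G → ℂ}
    (hχ : χ ∈ Irr G) {n : ℤ} (hn : ∑ g : G, θ g * χ g⁻¹ = (n : ℂ) * Nat.card G) :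
    |(n : ℝ)| ≤ r := by
  have h1 : ‖∑ g : G, θ g * χ g⁻¹‖ ≤ r * (Nat.card G : ℝ) := by
    calc ‖∑ g : G, θ g * χ g⁻¹‖ ≤ ∑ g : G, ‖θ g * χ g⁻¹‖ := norm_sum_le _ _
      _ ≤ ∑ g : G, (r : ℝ) * ((1 + ‖χ g⁻¹‖ ^ 2) / 2) := by
        refine Finset.sum_le_sum fun g _ => ?_
        rw [norm_mul]
        have h2 := hθ.norm_le g
        rw [hr, Complex.natCast_re] at h2
        refine mul_le_mul h2 ?_ (norm_nonneg _) (Nat.cast_nonneg r)
        nlinarith [sq_nonneg (‖χ g⁻¹‖ - 1)]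
      _ = r * ((Nat.card G + ∑ g : G, ‖χ g⁻¹‖ ^ 2) / 2) := by
        rw [← Finset.mul_sum, ← Finset.sum_div, Finset.sum_add_distrib]
        simp
      _ = r * (Nat.card G : ℝ) := by
        have h3 : ∑ g : G, ‖χ g⁻¹‖ ^ 2 = ∑ g : G, ‖χ g‖ ^ 2 :=
          Fintype.sum_equiv (Equiv.inv G) _ _ fun g => by simp
        rw [h3, sum_norm_sq hχ]
        ring
  rw [hn, norm_mul, Complex.norm_intCast, Complex.norm_natCast] at h1
  have hG : (0 : ℝ) < Nat.card G := by exact_mod_cast Nat.card_pos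
  exact le_of_mul_le_mul_right h1 hG

/-- the sum of the multiplicities times the degrees -/
theorem sum_deg (n : (G → ℂ) → ℤ) : (theta n : G → ℂ) 1 = ∑ χ ∈ irrF G, (n χ : ℂ) * χ 1 := rfl

end chars

section
variable {F L : Type} [Field F] [NumberField F] [Field L] [NumberField L] [Algebra F L] [IsGalois F L]

/-- the order of the zeta function of the top field -/
theorem zeta_top (F : Type) {L : Type} [Field F] [NumberField F] [Field L] [NumberField L]
    [Algebra F L] [IsGalois F L] {s₀ : ℂ} (h0 : 0 < s₀.re) (h1 : s₀ ≠ 1) :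
    ∃ r : ℕ, meromorphicOrderAt (cont (NumberField.dedekindZeta L)) s₀ = (r : WithTop ℤ) := by
  have h : Continued (K := F) L s₀ := continued h0 h1
  classical
  choose! m hm using fun χ (hχ : χ ∈ Irr (L ≃ₐ[F] L)) => exists_mult hχ (⊥ : Subgroup (L ≃ₐ[F] L)) 1
  have h2 := (ArtinData.ofExtension h).order_Lin ⊥ 1 m hm
  rw [lin_bot h h0] at h2
  have h3 := (ArtinData.ofExtension h).hecke ⊥ 1
  rw [lin_bot h h0, h2] at h3
  obtain ⟨k, hk⟩ := Int.eq_ofNat_of_zero_le (by exact_mod_cast h3 :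
    (0 : ℤ) ≤ ∑ χ ∈ irrF (L ≃ₐ[F] L), (m χ : ℤ) * (ArtinData.ofExtension h).ord χ)
  refine ⟨k, ?_⟩
  rw [h2, hk]
  rfl

/-- Heilbronn: the orders are bounded by the order of the zeta function of the top field -/
theorem ord_le {s₀ : ℂ} (h0 : 0 < s₀.re) (h1 : s₀ ≠ 1) {r : ℕ}
    (hr : meromorphicOrderAt (cont (NumberField.dedekindZeta L)) s₀ = (r : WithTop ℤ))
    {χ : (L ≃ₐ[F] L) → ℂ} (hχ : χ ∈ Irr (L ≃ₐ[F] L)) :
    ∃ n : ℤ, meromorphicOrderAt (cont (artinL L χ)) s₀ = (n : WithTop ℤ) ∧ |(n : ℝ)| ≤ r := by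
  classical
  have fG : Fintype (L ≃ₐ[F] L) := Fintype.ofFinite _
  have h : Continued (K := F) L s₀ := continued h0 h1
  have h2 : (theta (ArtinData.ofExtension h).ord : (L ≃ₐ[F] L) → ℂ) 1 = r :=
    (ArtinData.ofExtension h).theta_one (by rw [lin_bot h h0]; exact hr)
  exact ⟨(ArtinData.ofExtension h).ord χ, ((ArtinData.ofExtension h).coe_ord hχ).symm,
    mult_le (ArtinData.ofExtension h).isHeilbronn h2 hχ (theta_pair _ hχ)⟩

/-- the order of the zeta function of the base field -/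
theorem zeta_base {s₀ : ℂ} (h0 : 0 < s₀.re) (h1 : s₀ ≠ 1) :
    meromorphicOrderAt (cont (NumberField.dedekindZeta F)) s₀ =
      meromorphicOrderAt (cont (artinL L (fun _ : L ≃ₐ[F] L => (1 : ℂ)))) s₀ := by
  have h : Continued (K := F) L s₀ := continued h0 h1
  rw [← lin_top (M := L) h h0, ofExtension_Lin]
  have h2 : induced (⊤ : Subgroup (L ≃ₐ[F] L)) 1 = fun _ => (1 : ℂ) := by
    classical
    have fG : Fintype (L ≃ₐ[F] L) := Fintype.ofFinite _
    funext g
    unfold Pool.Agent.Q92.RT.induced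
    rw [finsum_eq_sum_of_fintype]
    have h3 : ∀ x : L ≃ₐ[F] L, (if h : x⁻¹ * g * x ∈ (⊤ : Subgroup (L ≃ₐ[F] L)) then
        (((1 : (⊤ : Subgroup (L ≃ₐ[F] L)) →* ℂˣ) ⟨x⁻¹ * g * x, h⟩ : ℂˣ) : ℂ) else 0) = 1 := by
      intro x
      rw [dif_pos (Subgroup.mem_top _)]
      simp
    rw [Finset.sum_congr rfl fun x _ => h3 x]
    have hc : (Nat.card (L ≃ₐ[F] L) : ℂ) ≠ 0 := by exact_mod_cast Nat.card_pos.ne'
    simp only [Finset.sum_const, Finset.card_univ, nsmul_eq_mul, mul_one, Subgroup.card_top]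
    rw [Nat.card_eq_fintype_card] at hc ⊢
    exact inv_mul_cancel₀ hc
  rw [h2]

end

section chars
variable {G : Type} [Group G] [Finite G]
open Pool.Agent.Q92.RT (class_expand)

/-- the sum of the squares of the degrees -/
theorem sum_deg_sq : ∑ χ ∈ irrF G, (χ 1 : ℂ) * χ 1 = Nat.card G := by
  classical
  have : Fintype G := Fintype.ofFinite G
  have h := class_expand (G := G) (θ := fun g => if g = 1 then (Nat.card G : ℂ) else 0)
    (m := fun χ => χ 1) (fun g x => by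
      by_cases hg : g = 1
      · rw [hg]; simp
      · rw [if_neg hg, if_neg]
        intro h
        apply hg
        have h2 : x * g = x := mul_inv_eq_one.1 h
        exact mul_eq_left.1 h2) (fun χ hχ => by
      rw [Finset.sum_eq_single 1]
      · simp [mul_comm]
      · intro g _ hg
        rw [if_neg hg, zero_mul]
      · intro h
        exact absurd (Finset.mem_univ _) h) 1
  simpa using h.symm

end chars

section
variable {k L : Type} [Field k] [NumberField k] [Field L] [NumberField L] [Algebra k L] [IsGalois k L]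

/-- **The zeta function of `K` controls all L-functions of the extensions `L/F`.** -/
theorem control (K : IntermediateField k L) {ε : ℝ} (hε : 0 < ε)
    (h4 : ∀ χ ∈ Irr (L ≃ₐ[K] L), ∀ s : ℂ, 0 < s.re → s ≠ 1 → AnalyticAt ℂ (Lam χ) s)
    (h5 : ∀ χ ∈ Irr (L ≃ₐ[K] L), χ ≠ (fun _ => 1) → ∀ χ' ∈ Irr (L ≃ₐ[K] L), ∀ s : ℂ,
      0 < s.re → s ≠ 1 → (analyticOrderNatAt (Lam χ) s : ℝ) * (χ' 1).re ≤
        (1 + ε) * (analyticOrderNatAt (Lam χ') s * (χ 1).re))
    {s₀ : ℂ} (h0 : 0 < s₀.re) (h1 : s₀ ≠ 1) :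
    ∃ z : ℕ, meromorphicOrderAt (cont (NumberField.dedekindZeta K)) s₀ = (z : WithTop ℤ) ∧
      ∀ (F : IntermediateField k L), ∀ χ ∈ Irr (L ≃ₐ[F] L), ∃ n : ℤ,
        meromorphicOrderAt (cont (artinL L χ)) s₀ = (n : WithTop ℤ) ∧
          |(n : ℝ)| ≤ (1 + ε) * (Module.finrank K L * z) := by
  classical
  have fG : Fintype (L ≃ₐ[K] L) := Fintype.ofFinite _
  have h : Continued (K := K) L s₀ := continued h0 h1
  set A := ArtinData.ofExtension h with hA
  obtain ⟨r, hr⟩ := zeta_top K (L := L) h0 h1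
  have hth : (theta A.ord : (L ≃ₐ[K] L) → ℂ) 1 = r := A.theta_one (by rw [hA, lin_bot h h0]; exact hr)
  have hnat : ∀ φ ∈ Irr (L ≃ₐ[K] L), (A.ord φ : ℤ) = (analyticOrderNatAt (Lam φ) s₀ : ℕ) := by
    intro φ hφ
    have h2 := h4 φ hφ s₀ h0 h1
    have h3 : meromorphicOrderAt (Lam φ) s₀ = (A.ord φ : WithTop ℤ) := by
      rw [Lam_order hφ, A.coe_ord hφ]
      rfl
    rw [h2.meromorphicOrderAt_eq] at h3
    have hnt : analyticOrderAt (Lam φ) s₀ ≠ ⊤ := by
      intro h5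
      rw [h5] at h3
      exact absurd h3 (by simp)
    obtain ⟨n, hn⟩ : ∃ n : ℕ, analyticOrderAt (Lam φ) s₀ = n := by
      obtain ⟨n, hn⟩ := ENat.ne_top_iff_exists.1 hnt
      exact ⟨n, hn.symm⟩
    unfold analyticOrderNatAt
    rw [hn] at h3 ⊢
    have h6 : ((n : ℤ) : WithTop ℤ) = (A.ord φ : WithTop ℤ) := h3
    have h7 : (n : ℤ) = A.ord φ := by exact_mod_cast h6
    rw [← h7]
    simp
  set z : ℕ := analyticOrderNatAt (Lam (fun _ : L ≃ₐ[K] L => (1 : ℂ))) s₀ with hz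
  have hone := one_irr (G := L ≃ₐ[K] L)
  have hz1 : (A.ord (fun _ => 1) : ℤ) = z := hnat _ hone
  refine ⟨z, ?_, ?_⟩
  · rw [zeta_base (L := L) h0 h1]
    have h2 := A.coe_ord hone
    rw [hz1] at h2
    exact h2.symm
  have hle : ∀ φ ∈ Irr (L ≃ₐ[K] L), (A.ord φ : ℝ) ≤ (1 + ε) * (z * (φ 1).re) := by
    intro φ hφ
    obtain ⟨d, hd, hd1⟩ := irr_deg hφ
    by_cases hne : φ = fun _ => 1
    · rw [hne, hz1]
      simp only [Complex.one_re, mul_one, Int.cast_natCast]
      have : (0 : ℝ) ≤ z := Nat.cast_nonneg z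
      nlinarith
    · have h2 := h5 φ hφ hne _ hone s₀ h0 h1
      simp only [Complex.one_re, mul_one] at h2
      have h3 : (A.ord φ : ℝ) = (analyticOrderNatAt (Lam φ) s₀ : ℕ) := by
        have := hnat φ hφ
        exact_mod_cast this
      rw [h3]
      exact h2
  have hrz : (r : ℝ) ≤ (1 + ε) * (Module.finrank K L * z) := by
    have h2 : (r : ℝ) = ∑ φ ∈ irrF (L ≃ₐ[K] L), (A.ord φ : ℝ) * (φ 1).re := by
      have h3 : ((r : ℝ) : ℂ) = ((∑ φ ∈ irrF (L ≃ₐ[K] L), (A.ord φ : ℝ) * (φ 1).re : ℝ) : ℂ) := by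
        rw [Complex.ofReal_natCast, ← hth, sum_deg]
        push_cast
        refine Finset.sum_congr rfl fun φ hφ => ?_
        obtain ⟨d, hd, hd1⟩ := irr_deg (mem_irrF.1 hφ)
        rw [hd1, Complex.natCast_re]
        push_cast
        rfl
      exact_mod_cast h3
    have h3 : ∑ φ ∈ irrF (L ≃ₐ[K] L), (φ 1).re * (φ 1).re = Module.finrank K L := by
      have h4 : ((∑ φ ∈ irrF (L ≃ₐ[K] L), (φ 1).re * (φ 1).re : ℝ) : ℂ) =
          ((Module.finrank K L : ℝ) : ℂ) := by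
        have h5 := sum_deg_sq (G := L ≃ₐ[K] L)
        rw [IsGalois.card_aut_eq_finrank] at h5
        push_cast
        rw [← h5]
        refine Finset.sum_congr rfl fun φ hφ => ?_
        obtain ⟨d, hd, hd1⟩ := irr_deg (mem_irrF.1 hφ)
        rw [hd1, Complex.natCast_re]
        push_cast
        rfl
      exact_mod_cast h4
    rw [h2]
    calc ∑ φ ∈ irrF (L ≃ₐ[K] L), (A.ord φ : ℝ) * (φ 1).re
        ≤ ∑ φ ∈ irrF (L ≃ₐ[K] L), (1 + ε) * (z * (φ 1).re) * (φ 1).re := by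
          refine Finset.sum_le_sum fun φ hφ => ?_
          obtain ⟨d, hd, hd1⟩ := irr_deg (mem_irrF.1 hφ)
          refine mul_le_mul_of_nonneg_right (hle φ (mem_irrF.1 hφ)) ?_
          rw [hd1, Complex.natCast_re]
          exact Nat.cast_nonneg d
      _ = (1 + ε) * ((∑ φ ∈ irrF (L ≃ₐ[K] L), (φ 1).re * (φ 1).re) * z) := by
          rw [Finset.sum_mul, Finset.mul_sum]
          exact Finset.sum_congr rfl fun φ _ => by ring
      _ = _ := by rw [h3]
  intro F χ hχ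
  obtain ⟨n, hn, hn2⟩ := ord_le (F := F) h0 h1 hr hχ
  exact ⟨n, hn, hn2.trans hrz⟩

end

end Pool.Agent.H511.Ex
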