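import Pool.Agent.H511.Ex.Tw4
import Pool.Graph.R_seed8.W446.AS.Two

/-!
# Almost all twists: assembly
-/

set_option autoImplicit false
set_option linter.unusedSectionVars false

namespace Pool.Agent.H511.Ex

open NumberField IsDedekindDomain Filter Topology Pool.Agent.H921R2.TatePole Pool.Agent.W353.NF
  Pool.Agent.Q5.BR Pool.Agent.H541R3.ART Pool.Agent.Q92.AR Pool.Agent.H302R2
open Pool.Agent.Q92.RT (induced induced_conj induced_pair class_expand)
open Pool.Agent.R399.TW (count countq Far Off Fm ex2)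

theorem finite_hom (H : Type) [Group H] [Finite H] : Finite (H →* ℂˣ) := by
  have : NeZero (Nat.card H) := ⟨Nat.card_pos.ne'⟩
  let f : (H →* ℂˣ) → H → rootsOfUnity (Nat.card H) ℂ := fun ψ h => ⟨ψ h, by
    rw [mem_rootsOfUnity, ← map_pow, pow_card_eq_one', map_one]⟩
  refine Finite.of_injective f fun ψ ψ' h => ?_
  ext x
  have h1 := congrFun h x
  have h2 : ψ x = ψ' x := congrArg Subtype.val h1
  rw [h2]

section
variable {K M : Type} [Field K] [NumberField K] [Field M] [NumberField M] [Algebra K M]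
  [IsGalois K M]

theorem tw_fams {n : ℕ} (hn : Detects (M ≃ₐ[K] M) n) :
    ∃ (N : ℕ) (ι : Type) (J : Finset ι) (d Ni : ι → ℕ)
      (L : ι → (q : ℕ) → DirichletCharacter ℂ q → ℂ → ℂ), N ≠ 0 ∧
      Fams J (n * Module.finrank ℚ K) N d Ni L ∧
      ∀ (q : ℕ) (ξ : DirichletCharacter ℂ q), 2 ≤ q → Nat.Coprime q N → ξ.IsPrimitive →
        ∀ χ ∈ Irr (M ≃ₐ[K] M), MeromorphicOn (TL M (dirW K ξ) χ) Set.univ ∧
          (∀ s : ℂ, 1 < s.re → TL M (dirW K ξ) χ s = twL M (dirW K ξ) χ s) ∧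
          ∀ s : ℂ, 0 < s.re → (∀ i ∈ J, L i q ξ s ≠ 0) →
            AnalyticAt ℂ (TL M (dirW K ξ) χ) s ∧ TL M (dirW K ξ) χ s ≠ 0 := by
  classical
  have fh : ∀ H : Subgroup (M ≃ₐ[K] M), Finite (H →* ℂˣ) := fun H => finite_hom H
  choose N L hL using fun (H : Subgroup (M ≃ₐ[K] M)) (ψ : H →* ℂˣ) => fam H ψ
  let ι : Type := Σ H : Subgroup (M ≃ₐ[K] M), (H →* ℂˣ)
  have fι : Fintype ι := Fintype.ofFinite ι
  refine ⟨∏ i : ι, N i.1 i.2, ι, Finset.univ.filter fun i : ι => i.1.index ≤ n,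
    fun i => i.1.index * Module.finrank ℚ K, fun i => N i.1 i.2, fun i => L i.1 i.2, ?_, ?_, ?_⟩
  · exact Finset.prod_ne_zero_iff.2 fun i _ => (hL i.1 i.2).1
  · have hdvd : ∀ i : ι, N i.1 i.2 ∣ ∏ i : ι, N i.1 i.2 := fun i =>
      Finset.dvd_prod_of_mem (fun i : ι => N i.1 i.2) (Finset.mem_univ i)
    refine ⟨fun i _ => hdvd i, fun i _ => ?_, fun i hi => ?_, fun i _ => (hL i.1 i.2).2.1, ?_⟩
    · exact Nat.mul_pos (Nat.pos_of_ne_zero Subgroup.index_ne_zero_of_finite) Module.finrank_pos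
    · exact Nat.mul_le_mul_right _ (Finset.mem_filter.1 hi).2
    · intro i _ q ξ hq hqN hξ s hs h0
      obtain ⟨-, E, -, h3, -⟩ := (hL i.1 i.2).2.2 q ξ hq
        (Nat.Coprime.coprime_dvd_right (hdvd i) hqN) hξ
      have h4 := h3 s hs
      rw [h0, mul_zero] at h4
      exact twL_ne_zero _ _ _ h4
  · intro q ξ hq hqN hξ χ hχ
    have hf : AllLin M (dirW K ξ) (fun H ψ => L H ψ q ξ) := fun H ψ =>
      (hL H ψ).2.2 q ξ hq (Nat.Coprime.coprime_dvd_right
        (Finset.dvd_prod_of_mem (fun i : ι => N i.1 i.2) (Finset.mem_univ (⟨H, ψ⟩ : ι))) hqN) hξ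
    refine ⟨TL_mero χ, fun s hs => TL_eq (norm_dirW ξ) hf hχ hs, fun s hs hne => ?_⟩
    exact TL_regular (norm_dirW ξ) hf hs hn (fun H ψ hH => hne ⟨H, ψ⟩ (by
      rw [Finset.mem_filter]
      exact ⟨Finset.mem_univ _, hH⟩)) hχ

end

/-! ### Which `n` detect -/

section
variable {G : Type} [Group G] [Finite G]

/-- a Heilbronn function which vanishes at `1` is zero -/
theorem heilbronn_zero {θ : G → ℂ} (hθ : IsHeilbronn θ) (h1 : θ 1 = 0) (g : G) : θ g = 0 := by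
  have h2 := hθ.norm_le g
  rw [h1, Complex.zero_re] at h2
  exact norm_le_zero_iff.1 h2

/-- an abelian subgroup of index at most `n` suffices -/
theorem detects_comm {n : ℕ} (A : Subgroup G) (hA : ∀ a ∈ A, ∀ b ∈ A, a * b = b * a)
    (hn : A.index ≤ n) : Detects G n := by
  intro θ hθ h
  refine heilbronn_zero hθ ?_
  classical
  have : Fintype A := Fintype.ofFinite A
  have hres : IsHeilbronn (fun a : A => θ (A.subtype a)) := hθ.comp A.subtype
  obtain ⟨ι, _, ψ, m, hd⟩ := hres.comm_decomp (fun a b => Subtype.ext (hA a a.2 b b.2))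
  have h1 : ∀ i, ∑ a : A, θ a * (((ψ i a)⁻¹ : ℂˣ) : ℂ) = 0 := by
    intro i
    rw [← h A (ψ i) hn, finsum_eq_sum_of_fintype]
  have h2 : ∑ a : A, θ a * θ ((a⁻¹ : A) : G) = 0 := by
    have h3 : ∀ a : A, θ a * θ ((a⁻¹ : A) : G) =
        ∑ i, (m i : ℂ) * (θ a * (((ψ i a)⁻¹ : ℂˣ) : ℂ)) := by
      intro a
      have h4 := hd a⁻¹
      simp only [Subgroup.subtype_apply] at h4
      rw [h4, Finset.mul_sum]
      refine Finset.sum_congr rfl fun i _ => ?_
      rw [map_inv]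
      ring
    rw [Finset.sum_congr rfl fun a _ => h3 a, Finset.sum_comm]
    refine Finset.sum_eq_zero fun i _ => ?_
    rw [← Finset.mul_sum, h1 i, mul_zero]
  have h5 : ∀ a : A, θ a * θ ((a⁻¹ : A) : G) = ((‖θ a‖ ^ 2 : ℝ) : ℂ) := by
    intro a
    rw [Subgroup.coe_inv, Pool.Agent.W446.AS.heilbronn_star hθ]
    push_cast
    exact Complex.mul_conj' (θ a)
  rw [Finset.sum_congr rfl fun a _ => h5 a, ← Complex.ofReal_sum] at h2
  have h6 : ∑ a : A, ‖θ a‖ ^ 2 = 0 := by exact_mod_cast h2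
  have h7 := (Finset.sum_eq_zero_iff_of_nonneg (fun a _ => sq_nonneg _)).1 h6 1 (Finset.mem_univ _)
  have h8 : ‖θ ((1 : A) : G)‖ = 0 := by
    simpa using h7
  simpa using h8

end

end Pool.Agent.H511.Ex
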