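import Pool.Agent.H511.Ex.Hol1

/-!
# Twists of Artin L-functions by Dirichlet characters
-/

set_option autoImplicit false
set_option linter.unusedSectionVars false

namespace Pool.Agent.H511.Ex

open NumberField IsDedekindDomain Filter Topology Pool.Agent.H921R2.TatePole Pool.Agent.W353.NF
  Pool.Agent.Q5.BR Pool.Agent.H541R3.ART Pool.Agent.Q92.AR
open Pool.Agent.Q92.RT (induced induced_conj induced_pair class_expand)

section
variable {K : Type} [Field K] [NumberField K] (M : Type) [Field M] [NumberField M] [Algebra K M]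

/-- `φ(Frob_v^n) ω(v)^n / (n q_v^{n s})`, `n = x.2 + 1`, for the primes `v = x.1` of `K` unramified in
`M`. -/
noncomputable def twTerm (ω : HeightOneSpectrum (𝓞 K) → ℂ) (φ : (M ≃ₐ[K] M) → ℂ) (s : ℂ)
    (x : HeightOneSpectrum (𝓞 K) × ℕ) : ℂ := artTerm M φ s x * ω x.1 ^ (x.2 + 1)

/-- the twist of the Artin L-function by `ω` -/
noncomputable def twL (ω : HeightOneSpectrum (𝓞 K) → ℂ) (φ : (M ≃ₐ[K] M) → ℂ) (s : ℂ) : ℂ :=
  Complex.exp (∑' x, twTerm M ω φ s x)

variable {M}

theorem twL_ne_zero (ω : HeightOneSpectrum (𝓞 K) → ℂ) (φ : (M ≃ₐ[K] M) → ℂ) (s : ℂ) :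
    twL M ω φ s ≠ 0 := Complex.exp_ne_zero _

theorem twTerm_summable {ω : HeightOneSpectrum (𝓞 K) → ℂ} (hω : ∀ v, ‖ω v‖ ≤ 1)
    (φ : (M ≃ₐ[K] M) → ℂ) {s : ℂ} (hs : 1 < s.re) : Summable (twTerm M ω φ s) := by
  refine Summable.of_norm_bounded (artTerm_summable φ hs).norm fun x => ?_
  unfold twTerm
  rw [norm_mul, norm_pow]
  exact mul_le_of_le_one_right (norm_nonneg _) (pow_le_one₀ (norm_nonneg _) (hω _))

theorem twTerm_sum {ι : Type*} (T : Finset ι) (m : ι → ℂ) (ω : HeightOneSpectrum (𝓞 K) → ℂ)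
    (φ : ι → (M ≃ₐ[K] M) → ℂ) (s : ℂ) (x : HeightOneSpectrum (𝓞 K) × ℕ) :
    twTerm M ω (fun g => ∑ i ∈ T, m i * φ i g) s x = ∑ i ∈ T, m i * twTerm M ω (φ i) s x := by
  unfold twTerm
  rw [artTerm_sum, Finset.sum_mul]
  exact Finset.sum_congr rfl fun i _ => by ring

/-- **The L-function of a sum is the product**, with integral multiplicities -/
theorem twL_sum_int {ω : HeightOneSpectrum (𝓞 K) → ℂ} (hω : ∀ v, ‖ω v‖ ≤ 1) {ι : Type*}
    (T : Finset ι) (m : ι → ℤ) (φ : ι → (M ≃ₐ[K] M) → ℂ) {s : ℂ} (hs : 1 < s.re) :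
    twL M ω (fun g => ∑ i ∈ T, (m i : ℂ) * φ i g) s = ∏ i ∈ T, twL M ω (φ i) s ^ m i := by
  unfold twL
  have h1 : twTerm M ω (fun g => ∑ i ∈ T, (m i : ℂ) * φ i g) s = fun x =>
      ∑ i ∈ T, (m i : ℂ) * twTerm M ω (φ i) s x := funext fun x => twTerm_sum T _ ω φ s x
  rw [h1, Summable.tsum_finsetSum (fun i _ => (twTerm_summable hω (φ i) hs).mul_left _),
    Complex.exp_sum]
  refine Finset.prod_congr rfl fun i _ => ?_
  rw [tsum_mul_left, ← Complex.exp_int_mul]

end

section
variable {K F M : Type} [Field K] [NumberField K] [Field F] [NumberField F] [Field M] [NumberField M]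
  [Algebra K F] [Algebra K M] [Algebra F M] [IsScalarTower K F M] [IsGalois K M] [IsGalois F M]

/-- **Inductivity.** The twisted L-function of the character induced by a linear character of the
group of `M/F` is the Euler product over the primes of `F`. -/
theorem twL_induced {ω : HeightOneSpectrum (𝓞 K) → ℂ} (hω : ∀ v, ‖ω v‖ ≤ 1)
    (ψ : fixer K F M →* ℂˣ) (ψ' : (M ≃ₐ[F] M) →* ℂˣ)
    (hψ : ∀ (y : M ≃ₐ[F] M) (hy : y.restrictScalars K ∈ fixer K F M),
      ψ ⟨y.restrictScalars K, hy⟩ = ψ' y) {s : ℂ} (hs : 1 < s.re) :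
    twL M ω (induced (fixer K F M) ψ) s =
      LP {w : HeightOneSpectrum (𝓞 F) | Unramified M (w.under (𝓞 K))}
        (fun w => ((ψ' (frob M w) : ℂˣ) : ℂ) * ω (w.under (𝓞 K)) ^ rdeg K w) s := by
  classical
  set P : Set (HeightOneSpectrum (𝓞 F)) := {w | Unramified M (w.under (𝓞 K))} with hP
  set χ : HeightOneSpectrum (𝓞 F) → ℂ := fun w => ((ψ' (frob M w) : ℂˣ) : ℂ) *
    ω (w.under (𝓞 K)) ^ rdeg K w with hχd
  have hχ : ∀ v ∈ P, ‖χ v‖ ≤ 1 := fun v _ => by
    rw [hχd]
    simp only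
    rw [norm_mul, norm_pow, norm_char ψ', one_mul]
    exact pow_le_one₀ (norm_nonneg _) (hω _)
  obtain ⟨h1, h2⟩ := LP_eq hχ hs
  rw [h2]
  unfold twL
  congr 1
  have h3 := hasSum_above (K := K) h1
  have h4 := (twTerm_summable hω (induced (fixer K F M) ψ) hs).hasSum.prod_fiberwise
    (g := fun v => ∑ w ∈ above F v,
      if w ∈ P then -Complex.log (1 - χ w * (nm w : ℂ) ^ (-s)) else 0) ?_
  · exact h4.unique h3
  intro v
  by_cases hv : Unramified M v
  · have h5 : HasSum (fun n => ∑ w ∈ above F v, (if rdeg K w ∣ n + 1 then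
        (rdeg K w : ℂ) * (((ψ' (frob M w) : ℂˣ) : ℂ)) ^ ((n + 1) / rdeg K w) else 0) *
        (((((nm v : ℂ) ^ (-s)) ^ (n + 1)) / ((n + 1 : ℕ) : ℂ)) * ω v ^ (n + 1)))
        (∑ w ∈ above F v, if w ∈ P then -Complex.log (1 - χ w * (nm w : ℂ) ^ (-s)) else 0) := by
      refine hasSum_sum fun w hw => ?_
      have hwv := mem_above.1 hw
      have hwP : w ∈ P := by
        change Unramified M (w.under (𝓞 K))
        rw [hwv]
        exact hv
      rw [if_pos hwP]
      have hd : 0 < rdeg K w := rdeg_pos w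
      have hnw : nm w = nm v ^ rdeg K w := by
        have h := absNorm_rdeg (K := K) w
        rw [hwv] at h
        exact h
      have h6 := hasSum_log (norm_fac_lt (hχ w hwP) w (by linarith : (0 : ℝ) < s.re))
      have hinj : Function.Injective fun m : ℕ => rdeg K w * (m + 1) - 1 := by
        intro m m' hmm
        have h3 : rdeg K w * (m + 1) - 1 + 1 = rdeg K w * (m + 1) :=
          Nat.sub_add_cancel (Nat.mul_pos hd m.succ_pos)
        have h4 : rdeg K w * (m' + 1) - 1 + 1 = rdeg K w * (m' + 1) :=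
          Nat.sub_add_cancel (Nat.mul_pos hd m'.succ_pos)
        have h5 : rdeg K w * (m + 1) = rdeg K w * (m' + 1) := by
          rw [← h3, ← h4]
          exact congrArg (· + 1) hmm
        have := Nat.eq_of_mul_eq_mul_left hd h5
        omega
      rw [← hinj.hasSum_iff]
      · refine h6.congr_fun fun m => ?_
        simp only [Function.comp]
        have h3 : rdeg K w * (m + 1) - 1 + 1 = rdeg K w * (m + 1) :=
          Nat.sub_add_cancel (Nat.mul_pos hd m.succ_pos)
        rw [h3, if_pos (Dvd.intro _ rfl), Nat.mul_div_cancel_left _ hd, hnw, Nat.cast_pow,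
          mul_pow, Nat.cast_mul]
        have h7 : ((nm v : ℂ) ^ rdeg K w) ^ (-s) = ((nm v : ℂ) ^ (-s)) ^ rdeg K w := by
          rw [← Complex.natCast_cpow_natCast_mul, ← Complex.cpow_nat_mul]
        have h8 : χ w ^ (m + 1) = ((ψ' (frob M w) : ℂˣ) : ℂ) ^ (m + 1) *
            ω v ^ (rdeg K w * (m + 1)) := by
          rw [hχd]
          simp only
          rw [hwv, mul_pow, ← pow_mul]
        rw [h7, ← pow_mul, h8]
        have hdc : (rdeg K w : ℂ) ≠ 0 := by exact_mod_cast hd.ne'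
        have hmc : ((m + 1 : ℕ) : ℂ) ≠ 0 := by exact_mod_cast m.succ_ne_zero
        field_simp
      · intro n hn
        have : ¬ rdeg K w ∣ n + 1 := by
          rintro ⟨c, hc⟩
          apply hn
          have hc0 : c ≠ 0 := by
            rintro rfl
            omega
          obtain ⟨m, rfl⟩ := Nat.exists_eq_succ_of_ne_zero hc0
          refine ⟨m, ?_⟩
          change rdeg K w * (m + 1) - 1 = n
          rw [← Nat.succ_eq_add_one m, ← hc]
          omega
        simp only [if_neg this, zero_mul]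
    refine h5.congr_fun fun n => ?_
    unfold twTerm artTerm
    simp only
    rw [if_pos hv, induced_frob hv (frob_spec v) ψ ψ' hψ, ← Finset.sum_mul]
    have h8 : (Ideal.absNorm v.asIdeal : ℂ) = (nm v : ℂ) := rfl
    rw [h8, cpow_succ_mul, div_mul_eq_div_div_swap, div_inv_eq_mul]
    ring
  · have e1 : (∑ w ∈ above F v,
        if w ∈ P then -Complex.log (1 - χ w * (nm w : ℂ) ^ (-s)) else 0) = 0 := by
      refine Finset.sum_eq_zero fun w hw => if_neg fun hwP => hv ?_
      have h9 : Unramified M (w.under (𝓞 K)) := hwP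
      rwa [mem_above.1 hw] at h9
    rw [e1]
    have e2 : (fun n => twTerm M ω (induced (fixer K F M) ψ) s (v, n)) = fun _ => 0 := by
      funext n
      unfold twTerm artTerm
      rw [if_neg hv, zero_mul]
    rw [e2]
    exact hasSum_zero

end

/-! ### Weights from Dirichlet characters -/

section
variable {K : Type} [Field K] [NumberField K]

/-- `ξ(N v)` -/
noncomputable def dirW (K : Type) [Field K] [NumberField K] {q : ℕ} (ξ : DirichletCharacter ℂ q)
    (v : HeightOneSpectrum (𝓞 K)) : ℂ := ξ ((Ideal.absNorm v.asIdeal : ℕ) : ZMod q)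

theorem norm_dirW {q : ℕ} (ξ : DirichletCharacter ℂ q) (v : HeightOneSpectrum (𝓞 K)) :
    ‖dirW K ξ v‖ ≤ 1 := DirichletCharacter.norm_le_one ξ _

variable {F : Type} [Field F] [NumberField F] [Algebra K F]

theorem dirW_under {q : ℕ} (ξ : DirichletCharacter ℂ q) (w : HeightOneSpectrum (𝓞 F)) :
    dirW K ξ (w.under (𝓞 K)) ^ rdeg K w = dirW F ξ w := by
  unfold dirW
  rw [absNorm_rdeg (K := K) w, Nat.cast_pow, map_pow]

end

end Pool.Agent.H511.Ex
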