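import Mathlib

/-!
# Subgroups of small index of the symmetric group, and an embedding in the alternating group
-/

set_option autoImplicit false

namespace Pool.Agent.H511.Ex

open Equiv Equiv.Perm

/-- A subgroup of index less than `m` of the symmetric group on `m ≥ 5` points contains the
alternating group. -/
theorem alt_le_of_index {m : ℕ} (hm : 5 ≤ m) (H : Subgroup (Perm (Fin m))) (hH : H.index < m) :
    alternatingGroup (Fin m) ≤ H := by
  classical
  have hcardP : Nat.card (Perm (Fin m)) = m.factorial := by
    rw [Nat.card_perm, Nat.card_fin]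
  have hdvd : H.normalCore.index ∣ H.index.factorial := by
    rw [Subgroup.normalCore_eq_ker, Subgroup.index_ker, Subgroup.index_eq_card, ← Nat.card_perm]
    exact Subgroup.card_subgroup_dvd_card (MulAction.toPermHom (Perm (Fin m)) _).range
  have hle : H.normalCore.index ≤ (m - 1).factorial :=
    (Nat.le_of_dvd (Nat.factorial_pos _) hdvd).trans (Nat.factorial_le (by omega))
  have hne : H.normalCore ≠ ⊥ := by
    intro h
    rw [h, Subgroup.index_bot, hcardP] at hle
    have h1 : m.factorial = m * (m - 1).factorial := by
      rw [Nat.mul_factorial_pred (by omega)]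
    rw [h1] at hle
    have h2 := Nat.factorial_pos (m - 1)
    nlinarith
  have hnt : Nontrivial H.normalCore := (Subgroup.nontrivial_iff_ne_bot _).2 hne
  refine le_trans ?_ H.normalCore_le
  exact alternatingGroup_le_of_normal (α := Fin m) (by rw [Nat.card_fin]; exact hm)
    (N := H.normalCore) hnt

/-- the diagonal embedding of `S_n` in `S_{2n}` -/
def dbl (n : ℕ) : Perm (Fin n) →* Perm (Fin (2 * n)) where
  toFun σ := finProdFinEquiv.permCongr (Equiv.prodCongrRight fun _ : Fin 2 => σ)
  map_one' := by
    ext x
    simp [Equiv.permCongr_apply, Equiv.prodCongrRight, Nat.mod_add_div]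
  map_mul' a b := by
    ext x
    simp [Equiv.permCongr_apply, Equiv.prodCongrRight]

theorem dbl_mem (n : ℕ) (σ : Perm (Fin n)) : dbl n σ ∈ alternatingGroup (Fin (2 * n)) := by
  rw [mem_alternatingGroup]
  change sign (finProdFinEquiv.permCongr (Equiv.prodCongrRight fun _ : Fin 2 => σ)) = 1
  rw [sign_permCongr, sign_prodCongrRight, Finset.prod_const, Finset.card_univ, Fintype.card_fin,
    Int.units_sq]

theorem dbl_injective (n : ℕ) : Function.Injective (dbl n) := by
  intro a b h
  have h1 : Equiv.prodCongrRight (fun _ : Fin 2 => a) = Equiv.prodCongrRight (fun _ : Fin 2 => b) :=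
    finProdFinEquiv.permCongr.injective h
  ext x
  have h2 := DFunLike.congr_fun h1 ((0 : Fin 2), x)
  simp only [Equiv.prodCongrRight, Equiv.coe_fn_mk, Prod.mk.injEq, true_and] at h2
  rw [h2]

end Pool.Agent.H511.Ex
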