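import Pool.Agent.H511.Ex.Hol1
import Pool.Graph.R_pool_sql_team_seeded_1acbe0a2.Y786.FR.Main

/-!
# Artin L-functions of extensions whose group acts freely

`L/k` is a Galois extension of number fields with group `Γ`, `j : S_m → Γ` a homomorphism, `F` a field
between `k` and `L` such that the group of `L/F` is the image of a group which acts freely on the `m`
points. If `m` is divisible by a number which depends only on the order of the group of `L/F`, the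
Artin L-functions of `L/F` are holomorphic.
-/

set_option autoImplicit false
set_option linter.unusedSectionVars false

namespace Pool.Agent.H511.Ex

open NumberField IsDedekindDomain Filter Topology Pool.Agent.H921R2.TatePole Pool.Agent.W353.NF
  Pool.Agent.Q5.BR Pool.Agent.H302R2 Pool.Agent.H541R3.ART Pool.Agent.W446.AS Pool.Agent.Q92.AR
  Pool.Agent.Y786.FR Equiv
open Pool.Agent.Q92.RT (induced induced_conj induced_pair class_expand)

theorem Cmp.npow {f g : ℂ → ℂ} (h : Cmp f g) (a : ℕ) :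
    Cmp (fun s => f s ^ a) (fun s => g s ^ a) := by
  obtain ⟨E, h1, h2, h3⟩ := h
  exact ⟨fun s => E s ^ a, fun s hs => (h1 s hs).fun_pow _, fun s hs => by
    change f s ^ a = E s ^ a * g s ^ a
    rw [h2 s hs, mul_pow],
    fun s hs => ⟨(h3 s hs).1.fun_pow a, pow_ne_zero _ (h3 s hs).2⟩⟩

section
variable {k F L : Type} [Field k] [NumberField k] [Field F] [NumberField F] [Field L] [NumberField L]
  [Algebra k F] [Algebra k L] [Algebra F L] [IsScalarTower k F L] [IsGalois k L] [IsGalois F L]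

/-- the L-functions are not identically zero, and meromorphic -/
theorem continues_irr {χ : (L ≃ₐ[k] L) → ℂ} (hχ : χ ∈ Irr (L ≃ₐ[k] L)) :
    Continues (cont (artinL L χ)) (artinL L χ) := cont_spec (mero recip hecke brauer hχ)

theorem continues_prod' (v : ((L ≃ₐ[k] L) → ℂ) → ℕ) :
    Continues (fun s => ∏ ψ ∈ irrF (L ≃ₐ[k] L), cont (artinL L ψ) s ^ v ψ)
      (fun s => ∏ ψ ∈ irrF (L ≃ₐ[k] L), artinL L ψ s ^ v ψ) := by
  refine ⟨fun s hs => ?_, fun s hs => ?_⟩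
  · exact MeromorphicAt.fun_prod fun ψ hψ =>
      ((continues_irr (mem_irrF.1 hψ)).1 s hs).fun_pow _
  · exact Finset.prod_congr rfl fun ψ hψ => by rw [(continues_irr (mem_irrF.1 hψ)).2 s hs]

/-- the orders of the L-functions of `L/F` -/
theorem order_irr {χ : (L ≃ₐ[F] L) → ℂ} (hχ : χ ∈ Irr (L ≃ₐ[F] L)) (v : ((L ≃ₐ[k] L) → ℂ) → ℕ)
    (hv : ∀ ψ ∈ Irr (L ≃ₐ[k] L), ∑ᶠ g : L ≃ₐ[F] L, ψ (inc k F L g) * χ g⁻¹ =
      (v ψ : ℂ) * (Nat.card (L ≃ₐ[F] L) : ℂ)) {s₀ : ℂ} (h0 : 0 < s₀.re)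
    (h : Continued (K := k) L s₀) :
    meromorphicOrderAt (cont (artinL L χ)) s₀ =
      ((∑ ψ ∈ irrF (L ≃ₐ[k] L), (v ψ : ℤ) * (ArtinData.ofExtension h).ord ψ : ℤ) : WithTop ℤ) := by
  rw [(cmp_irr hχ v hv).order (continues_irr hχ) (continues_prod' v) h0]
  refine order_M (ArtinData.ofExtension h) v (Filter.Eventually.of_forall fun s => ?_)
  simp only
  rw [finprod_mem_eq_finite_toFinset_prod _ (irr_finite (G := L ≃ₐ[k] L))]
  rfl

end

/-- **Main theorem.** -/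
theorem core (N : ℕ) (ε : ℝ) (hε : 0 < ε) : ∃ m₀ : ℕ, 0 < m₀ ∧ ∀ m : ℕ, 0 < m → m₀ ∣ m →
    ∀ (k F L : Type) [Field k] [NumberField k] [Field F] [NumberField F] [Field L] [NumberField L]
      [Algebra k F] [Algebra k L] [Algebra F L] [IsScalarTower k F L] [IsGalois k L] [IsGalois F L]
      (j : Perm (Fin m) →* (L ≃ₐ[k] L)) (ι : (L ≃ₐ[F] L) →* Perm (Fin m)), FreeHom ι →
      Nat.card (L ≃ₐ[F] L) ≤ N → (∀ g, j (ι g) = inc k F L g) →
      (∀ χ ∈ Irr (L ≃ₐ[F] L), ∃ (a l : ℕ) (H : Fin l → Subgroup (L ≃ₐ[k] L))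
        (lam : ∀ i, H i →* ℂˣ), 0 < a ∧
        Cmp (fun s => artinL L χ s ^ a) (fun s => ∏ i, artinL L (induced (H i) (lam i)) s) ∧
        (χ ≠ (fun _ => 1) → ∀ i, lam i ≠ 1)) ∧
      ∀ s₀ : ℂ, 0 < s₀.re → s₀ ≠ 1 → ∃ o : ((L ≃ₐ[F] L) → ℂ) → ℤ,
        (∀ χ ∈ Irr (L ≃ₐ[F] L), meromorphicOrderAt (cont (artinL L χ)) s₀ = o χ ∧ 0 ≤ o χ) ∧
        ∀ χ ∈ Irr (L ≃ₐ[F] L), χ ≠ (fun _ => 1) → ∀ χ' ∈ Irr (L ≃ₐ[F] L),
          o χ * (χ' 1).re ≤ (1 + ε) * (o χ' * (χ 1).re) := by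
  classical
  obtain ⟨m₀, hm₀, hm⟩ := free_mult N ε hε
  refine ⟨m₀, hm₀, ?_⟩
  intro m hmpos hdvd k F L _ _ _ _ _ _ _ _ _ _ _ _ j ι hι hN hj
  have fG : Fintype (L ≃ₐ[F] L) := Fintype.ofFinite _
  have fΓ : Fintype (L ≃ₐ[k] L) := Fintype.ofFinite _
  have hG' : Fintype.card (L ≃ₐ[F] L) ≤ N := by rwa [← Nat.card_eq_fintype_card]
  have hji : j.comp ι = inc k F L := MonoidHom.ext hj
  choose! v hv using fun (χ : (L ≃ₐ[F] L) → ℂ) (hχ : χ ∈ Irr (L ≃ₐ[F] L)) (ψ : (L ≃ₐ[k] L) → ℂ)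
    (hψ : ψ ∈ Irr (L ≃ₐ[k] L)) => exists_mult_hom hψ (inc k F L) hχ
  have hpair : ∀ n : ((L ≃ₐ[k] L) → ℂ) → ℤ, ∀ χ ∈ Irr (L ≃ₐ[F] L),
      ∑ g : L ≃ₐ[F] L, theta n (j (ι g)) * χ g⁻¹ =
        ((∑ ψ ∈ irrF (L ≃ₐ[k] L), (v χ ψ : ℤ) * n ψ : ℤ) : ℂ) * Fintype.card (L ≃ₐ[F] L) := by
    intro n χ hχ
    have h1 := theta_pair_hom n (inc k F L) χ (v χ) (hv χ hχ)
    rw [Nat.card_eq_fintype_card] at h1
    rw [← h1]
    exact Finset.sum_congr rfl fun g _ => by rw [hj]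
  refine ⟨?_, ?_⟩
  · intro χ hχ
    obtain ⟨a, l, H, lam, w, ha, hw, hkv⟩ := cone_of_heilbronn (Γ := L ≃ₐ[k] L) (v χ) (by
      intro n hn
      exact (hm m hmpos hdvd (fun σ => theta n (j σ)) (hn.comp j) (L ≃ₐ[F] L) hG' ι hι
        (fun χ => ∑ ψ ∈ irrF (L ≃ₐ[k] L), (v χ ψ : ℤ) * n ψ) (hpair n)).1 χ hχ)
    refine ⟨a, l, H, lam, ha, ?_, ?_⟩
    · refine ((cmp_irr hχ (v χ) (hv χ hχ)).npow a).trans (Cmp.of_eq fun s hs => ?_)
      have h2 : ∀ i, artinL L (induced (H i) (lam i)) s =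
          ∏ ψ ∈ irrF (L ≃ₐ[k] L), artinL L ψ s ^ w i ψ :=
        fun i => artinL_induced_prod (H i) (lam i) (hw i) hs
      rw [Finset.prod_congr rfl fun i _ => h2 i, Finset.prod_comm, ← Finset.prod_pow]
      refine Finset.prod_congr rfl fun ψ hψ => ?_
      rw [← pow_mul, Finset.prod_pow_eq_pow_sum, ← hkv ψ (mem_irrF.mp hψ), mul_comm]
    · intro hne i hlam
      have h1 := hkv _ (one_irr (G := L ≃ₐ[k] L))
      have h2 := hv χ hχ _ (one_irr (G := L ≃ₐ[k] L))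
      rw [finsum_eq_sum_of_fintype] at h2
      simp only [one_mul] at h2
      have h3 : ∑ g : L ≃ₐ[F] L, χ g⁻¹ = 0 := sum_irr_inv hχ hne
      rw [h3] at h2
      have hGc : (Nat.card (L ≃ₐ[F] L) : ℂ) ≠ 0 := by exact_mod_cast Nat.card_pos.ne'
      have h4 : v χ (fun _ => 1) = 0 := by
        rcases mul_eq_zero.1 h2.symm with h | h
        · exact_mod_cast h
        · exact absurd h hGc
      rw [h4, mul_zero] at h1
      have h5 : w i (fun _ => 1) = 0 := (Finset.sum_eq_zero_iff.1 h1.symm) i (Finset.mem_univ _)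
      have h6 := hw i _ (one_irr (G := L ≃ₐ[k] L))
      rw [h5, hlam] at h6
      have fH : Fintype (H i) := Fintype.ofFinite _
      rw [finsum_eq_sum_of_fintype] at h6
      simp at h6
  · intro s₀ h0 h1
    have hC : Continued (K := k) L s₀ := continued h0 h1
    obtain ⟨h2, h3⟩ := hm m hmpos hdvd (fun σ => theta (ArtinData.ofExtension hC).ord (j σ))
      ((ArtinData.ofExtension hC).isHeilbronn.comp j) (L ≃ₐ[F] L) hG' ι hι
      (fun χ => ∑ ψ ∈ irrF (L ≃ₐ[k] L), (v χ ψ : ℤ) * (ArtinData.ofExtension hC).ord ψ)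
      (hpair (ArtinData.ofExtension hC).ord)
    exact ⟨fun χ => ∑ ψ ∈ irrF (L ≃ₐ[k] L), (v χ ψ : ℤ) * (ArtinData.ofExtension hC).ord ψ,
      fun χ hχ => ⟨order_irr hχ (v χ) (hv χ hχ) h0 hC, h2 χ hχ⟩, h3⟩

end Pool.Agent.H511.Ex
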