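import Pool.Graph.R_pool_sql_team_18ca10b6.H5.WH.Selmer
import Pool.Agent.H511.Ex.Alt

/-!
# The splitting field of `X ^ m - X - 1` over a number field
-/

set_option autoImplicit false

namespace Pool.Agent.H511.Ex

open NumberField Polynomial Pool.Agent.H5.WH Module

section
variable {L : Type} [Field L] [NumberField L]

lemma splits_int {n : ℕ} (hn : 2 ≤ n)
    (hs : ((sel n).map (algebraMap ℤ L)).Splits) :
    ((sel n).map (algebraMap ℤ (𝓞 L))).Splits := by
  have hmap : ((sel n).map (algebraMap ℤ (𝓞 L))).map (algebraMap (𝓞 L) L)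
      = (sel n).map (algebraMap ℤ L) := by
    rw [Polynomial.map_map, ← IsScalarTower.algebraMap_eq]
  refine Splits.of_splits_map_of_injective (i := algebraMap (𝓞 L) L)
    (FaithfulSMul.algebraMap_injective _ _) (by rw [hmap]; exact hs) ?_
  intro a ha
  rw [hmap] at ha
  have hroot : aeval a (sel n) = 0 := by
    have := isRoot_of_mem_roots ha
    rwa [IsRoot.def, eval_map_algebraMap] at this
  have hint : IsIntegral ℤ a := ⟨sel n, sel_monic hn, hroot⟩
  exact ⟨⟨a, hint⟩, rfl⟩

lemma ncard_roots {n : ℕ} (hn : 2 ≤ n) (hs : ((sel n).map (algebraMap ℤ L)).Splits) :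
    ((sel n).rootSet (𝓞 L)).ncard = n := by
  classical
  have hs' := splits_int hn hs
  have hnodup : ((sel n).map (algebraMap ℤ L)).roots.Nodup := by
    apply nodup_roots
    have h1 : (sel n).map (algebraMap ℤ L)
        = ((sel n).map (algebraMap ℤ ℚ)).map (algebraMap ℚ L) := by
      rw [Polynomial.map_map, ← IsScalarTower.algebraMap_eq]
    rw [h1]
    exact (sel_irr hn).separable.map
  have hmap : ((sel n).map (algebraMap ℤ (𝓞 L))).map (algebraMap (𝓞 L) L)
      = (sel n).map (algebraMap ℤ L) := by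
    rw [Polynomial.map_map, ← IsScalarTower.algebraMap_eq]
  have hnodup' : ((sel n).map (algebraMap ℤ (𝓞 L))).roots.Nodup := by
    rw [← hmap, hs'.roots_map_of_injective (FaithfulSMul.algebraMap_injective _ _)] at hnodup
    exact Multiset.Nodup.of_map _ hnodup
  rw [rootSet_def, Set.ncard_coe_finset, aroots_def, Multiset.toFinset_card_of_nodup hnodup',
    ← hs'.natDegree_eq_card_roots, (sel_monic hn).natDegree_map, sel_natDegree hn]

end

lemma adjoin_top {k L : Type} [Field k] [Field L] [Algebra k L] (f : k[X])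
    [h : IsSplittingField k L f] : IntermediateField.adjoin k (f.rootSet L) = ⊤ := by
  rw [eq_top_iff]
  intro x _
  have h1 := IntermediateField.algebra_adjoin_le_adjoin k (f.rootSet L)
  rw [IsSplittingField.adjoin_rootSet L f] at h1
  exact h1 (Algebra.mem_top (x := x))

lemma rootSet_map {k L : Type} [Field k] [Field L] [CharZero k] [Algebra k L] (p : ℤ[X]) :
    (p.map (algebraMap ℤ k)).rootSet L = p.rootSet L := by
  rw [rootSet, rootSet, aroots_def, aroots_def, Polynomial.map_map,
    ← IsScalarTower.algebraMap_eq]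

lemma splits_of {k L : Type} [Field k] [Field L] [Algebra k L] (p : ℤ[X])
    [h : IsSplittingField k L (p.map (algebraMap ℤ k))] :
    (p.map (algebraMap ℤ L)).Splits := by
  have h1 : p.map (algebraMap ℤ L) = (p.map (algebraMap ℤ k)).map (algebraMap k L) := by
    rw [Polynomial.map_map, ← IsScalarTower.algebraMap_eq]
  rw [h1]
  exact IsSplittingField.splits L _

/-- A splitting field of `X ^ m - X - 1` over `ℚ` has degree `m!`. -/
theorem finrank_sel_aux {m : ℕ} (hm : 2 ≤ m) (L : Type) [Field L] [NumberField L]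
    [h : IsSplittingField ℚ L ((sel m).map (algebraMap ℤ ℚ))] :
    finrank ℚ L = m.factorial := by
  have hgal : IsGalois ℚ L :=
    IsGalois.of_separable_splitting_field (p := (sel m).map (algebraMap ℤ ℚ)) (sel_irr hm).separable
  have hs : ((sel m).map (algebraMap ℤ L)).Splits := splits_of (k := ℚ) _
  have hgen : IntermediateField.adjoin ℚ ((sel m).rootSet L) = ⊤ := by
    rw [← rootSet_map (k := ℚ)]
    exact adjoin_top _
  obtain ⟨β, -, -, -, e, -⟩ := sel_main hm hs hgen
  rw [← IsGalois.card_aut_eq_finrank, Nat.card_congr e.toEquiv, Nat.card_perm, Nat.card_fin]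

/-- A splitting field of `X ^ m - X - 1` over `ℚ` has degree `m!`. -/
theorem finrank_sel_aux' {m : ℕ} (hm : 2 ≤ m) (L : Type) [Field L] [NumberField L]
    (A : Algebra ℚ L) (h : @IsSplittingField ℚ L _ _ A ((sel m).map (algebraMap ℤ ℚ))) :
    @finrank ℚ L _ _ A.toModule = m.factorial := by
  obtain rfl : A = DivisionRing.toRatAlgebra := Subsingleton.elim _ _
  exact finrank_sel_aux hm L

/-- The splitting field of `X ^ m - X - 1` over `ℚ` has degree `m!`. -/
theorem finrank_sel {m : ℕ} (hm : 2 ≤ m) :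
    finrank ℚ ((sel m).map (algebraMap ℤ ℚ)).SplittingField = m.factorial := by
  have h1 : FiniteDimensional ℚ ((sel m).map (algebraMap ℤ ℚ)).SplittingField := inferInstance
  have h3 : NumberField ((sel m).map (algebraMap ℤ ℚ)).SplittingField :=
    { to_charZero := inferInstance
      to_finiteDimensional := by
        convert h1 }
  exact finrank_sel_aux' hm _ _ (IsSplittingField.splittingField _)

/-- a real root -/
lemma exists_real_root {m : ℕ} (hm : 2 ≤ m) : ∃ r : ℝ, aeval r (sel m) = 0 := by
  have hcont : Continuous fun x : ℝ => aeval x (sel m) := (sel m).continuous_aeval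
  have e : ∀ x : ℝ, aeval x (sel m) = x ^ m - x - 1 := by
    intro x
    simp [sel]
  have h1 : aeval (1 : ℝ) (sel m) ≤ 0 := by
    rw [e]
    norm_num
  have h2 : 0 ≤ aeval (2 : ℝ) (sel m) := by
    rw [e]
    have h3 : (2 : ℝ) ^ 2 ≤ 2 ^ m := pow_le_pow_right₀ (by norm_num) hm
    linarith
  obtain ⟨r, -, hr⟩ := intermediate_value_Icc (by norm_num : (1 : ℝ) ≤ 2) hcont.continuousOn
    ⟨h1, h2⟩
  exact ⟨r, hr⟩

/-- roots come from a field in which the polynomial splits -/
lemma exists_preimage {m : ℕ} (hm : 2 ≤ m) {L : Type} [Field L]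
    (hs : ((sel m).map (algebraMap ℤ L)).Splits) (φ : L →+* ℂ) {r : ℝ} (hr : aeval r (sel m) = 0) :
    ∃ x : L, aeval x (sel m) = 0 ∧ φ x = r := by
  have hne : (sel m).map (algebraMap ℤ L) ≠ 0 := ((sel_monic hm).map _).ne_zero
  have h1 : ((sel m).map (algebraMap ℤ L)).map φ = (sel m).map (algebraMap ℤ ℂ) := by
    rw [Polynomial.map_map]
    congr 1
    exact RingHom.ext_int _ _
  have h2 : (r : ℂ) ∈ (((sel m).map (algebraMap ℤ L)).map φ).roots := by
    rw [h1, mem_roots ((sel_monic hm).map _).ne_zero, IsRoot.def, eval_map_algebraMap]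
    have := aeval_algebraMap_apply ℂ r (sel m)
    rw [hr, map_zero] at this
    exact this
  rw [hs.roots_map] at h2
  obtain ⟨x, hx, hxr⟩ := Multiset.mem_map.1 h2
  refine ⟨x, ?_, hxr⟩
  have := isRoot_of_mem_roots hx
  rwa [IsRoot.def, eval_map_algebraMap] at this

/-- **A splitting field of `X ^ m - X - 1` over a number field `k` of degree less than `m`.** Its
Galois group is the symmetric or the alternating group, and the elements of the inertia groups are
transpositions or trivial. -/
theorem field_main (k : Type) [Field k] [NumberField k] (m : ℕ) (hm : 5 ≤ m)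
    (hmk : finrank ℚ k < m) (L : Type) [Field L] [NumberField L] [Algebra k L]
    [hspl : IsSplittingField k L ((sel m).map (algebraMap ℤ k))] :
    IsGalois k L ∧
      ∃ Φ : (L ≃ₐ[k] L) →* Equiv.Perm (Fin m), Function.Injective Φ ∧
        alternatingGroup (Fin m) ≤ Φ.range ∧
        (∀ (P : Ideal (𝓞 L)) (_ : P.IsPrime) (g : L ≃ₐ[k] L), g ∈ P.inertia (L ≃ₐ[k] L) →
          Φ g = 1 ∨ (Φ g).IsSwap) ∧
        ∀ (φ : L →+* ℂ) (g : L ≃ₐ[k] L), ComplexEmbedding.IsConj φ g → ∃ i, Φ g i = i := by
  classical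
  have hm2 : 2 ≤ m := by omega
  have hfq : (sel m).map (algebraMap ℤ k) = ((sel m).map (algebraMap ℤ ℚ)).map (algebraMap ℚ k) := by
    rw [Polynomial.map_map, ← IsScalarTower.algebraMap_eq]
  have hfsep : ((sel m).map (algebraMap ℤ k)).Separable := by
    rw [hfq]
    exact (sel_irr hm2).separable.map
  have hgal : IsGalois k L :=
    IsGalois.of_separable_splitting_field (p := (sel m).map (algebraMap ℤ k)) hfsep
  have hs : ((sel m).map (algebraMap ℤ L)).Splits := splits_of (k := k) _
  have hs' := splits_int hm2 hs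
  have hcard := ncard_roots hm2 hs
  have hfin : ((sel m).rootSet (𝓞 L)).Finite := rootSet_finite _ _
  have hft : Fintype ((sel m).rootSet (𝓞 L)) := hfin.fintype
  have hc : Fintype.card ((sel m).rootSet (𝓞 L)) = m := by
    rw [← Nat.card_eq_fintype_card, Nat.card_coe_set_eq, hcard]
  let ε : (sel m).rootSet (𝓞 L) ≃ Fin m := Fintype.equivFinOfCardEq hc
  have hne : (sel m) ≠ 0 := (sel_monic hm2).ne_zero
  let Φ0 : (L ≃ₐ[k] L) →* Equiv.Perm ((sel m).rootSet (𝓞 L)) := MulAction.toPermHom _ _
  have hinj : Function.Injective Φ0 := by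
    rw [injective_iff_map_eq_one]
    intro σ hσ
    have h1 : ∀ x ∈ (sel m).rootSet L, σ x = x := by
      intro x hx
      have hx0 : aeval x (sel m) = 0 := aeval_eq_zero_of_mem_rootSet hx
      have hint : IsIntegral ℤ x := ⟨sel m, sel_monic hm2, hx0⟩
      obtain ⟨x', hx'⟩ : ∃ x' : 𝓞 L, (x' : L) = x := ⟨⟨x, hint⟩, rfl⟩
      have hx1 : aeval x' (sel m) = 0 := by
        apply FaithfulSMul.algebraMap_injective (𝓞 L) L
        have := aeval_algebraMap_apply L x' (sel m)
        rw [← this, map_zero]
        rw [show algebraMap (𝓞 L) L x' = x from hx', hx0]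
      have hx2 : x' ∈ (sel m).rootSet (𝓞 L) := by
        rw [mem_rootSet_of_ne hne]; exact hx1
      have h2 := DFunLike.congr_fun hσ (⟨x', hx2⟩ : (sel m).rootSet (𝓞 L))
      have h3 := congrArg (fun z : (sel m).rootSet (𝓞 L) => ((z : 𝓞 L) : L)) h2
      rw [← hx']
      exact h3
    have hgen : IntermediateField.adjoin k ((sel m).rootSet L) = ⊤ := by
      rw [← rootSet_map (k := k)]
      exact adjoin_top _
    have h4 : IntermediateField.adjoin k ((sel m).rootSet L) ≤
        IntermediateField.fixedField (Subgroup.zpowers σ) := by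
      rw [IntermediateField.adjoin_le_iff]
      intro x hx
      rw [SetLike.mem_coe, IntermediateField.mem_fixedField_iff]
      intro τ hτ
      have h5 : Subgroup.zpowers σ ≤ MulAction.stabilizer (L ≃ₐ[k] L) x := by
        rw [Subgroup.zpowers_le]
        exact h1 x hx
      exact h5 hτ
    rw [hgen, top_le_iff] at h4
    apply AlgEquiv.ext
    intro x
    have h6 : x ∈ IntermediateField.fixedField (Subgroup.zpowers σ) := by
      rw [h4]; trivial
    rw [IntermediateField.mem_fixedField_iff] at h6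
    exact h6 σ (Subgroup.mem_zpowers σ)
  let Φ : (L ≃ₐ[k] L) →* Equiv.Perm (Fin m) := ε.permCongrHom.toMonoidHom.comp Φ0
  have hΦinj : Function.Injective Φ := ε.permCongrHom.injective.comp hinj
  refine ⟨hgal, Φ, hΦinj, ?_, ?_, ?_⟩
  · apply alt_le_of_index hm
    -- the index is at most the degree of `k`
    have h1 : Nat.card Φ.range = finrank k L := by
      rw [← IsGalois.card_aut_eq_finrank]
      exact (Nat.card_congr (MonoidHom.ofInjective hΦinj).toEquiv).symm
    have h2 : m.factorial ≤ finrank ℚ L := by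
      rw [← finrank_sel hm2]
      have hsp : (((sel m).map (algebraMap ℤ ℚ)).map (algebraMap ℚ L)).Splits := by
        rw [Polynomial.map_map, ← IsScalarTower.algebraMap_eq]
        exact hs
      let i := SplittingField.lift ((sel m).map (algebraMap ℤ ℚ)) hsp
      exact LinearMap.finrank_le_finrank_of_injective (f := i.toLinearMap) i.injective
    have h3 : finrank ℚ k * finrank k L = finrank ℚ L := finrank_mul_finrank ℚ k L
    have h4 : Nat.card Φ.range * Φ.range.index = m.factorial := by
      rw [Subgroup.card_mul_index, Nat.card_perm, Nat.card_fin]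
    have h5 : 0 < finrank k L := finrank_pos
    rw [h1] at h4
    rw [← h4, ← h3, mul_comm] at h2
    exact (Nat.le_of_mul_le_mul_right h2 h5).trans_lt hmk
  · intro P hP g hg
    have h1 := hs'.toPermHom_apply_eq_one_or_isSwap_of_ncard_le_of_mem_inertia (G := L ≃ₐ[k] L)
      P (by
        rw [hcard]
        refine ncard_ge hm2 ?_
        have : (sel m).map (algebraMap ℤ (𝓞 L ⧸ P))
            = ((sel m).map (algebraMap ℤ (𝓞 L))).map (algebraMap (𝓞 L) (𝓞 L ⧸ P)) := by
          rw [Polynomial.map_map, ← IsScalarTower.algebraMap_eq]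
        rw [this]
        exact hs'.map _) g hg
    rcases h1 with h1 | ⟨a, b, hab, h1⟩
    · left
      change ε.permCongrHom (Φ0 g) = 1
      rw [show Φ0 g = 1 from h1, map_one]
    · right
      refine ⟨ε a, ε b, fun h => hab (ε.injective h), ?_⟩
      change ε.permCongr (Φ0 g) = _
      rw [show Φ0 g = Equiv.swap a b from h1]
      exact Equiv.symm_trans_swap_trans a b ε
  · intro φ g hg
    obtain ⟨r, hr⟩ := exists_real_root hm2
    obtain ⟨x, hx, hxr⟩ := exists_preimage hm2 hs φ hr
    have hint : IsIntegral ℤ x := ⟨sel m, sel_monic hm2, hx⟩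
    obtain ⟨x', hx'⟩ : ∃ x' : 𝓞 L, (x' : L) = x := ⟨⟨x, hint⟩, rfl⟩
    have hx1 : aeval x' (sel m) = 0 := by
      apply FaithfulSMul.algebraMap_injective (𝓞 L) L
      have := aeval_algebraMap_apply L x' (sel m)
      rw [← this, map_zero]
      rw [show algebraMap (𝓞 L) L x' = x from hx', hx]
    have hx2 : x' ∈ (sel m).rootSet (𝓞 L) := by
      rw [mem_rootSet_of_ne hne]; exact hx1
    have hgx : g x = x := by
      apply φ.injective
      rw [hg.eq x, hxr]
      exact Complex.conj_ofReal r
    refine ⟨ε ⟨x', hx2⟩, ?_⟩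
    change ε (Φ0 g (ε.symm (ε ⟨x', hx2⟩))) = ε ⟨x', hx2⟩
    rw [Equiv.symm_apply_apply]
    congr 1
    apply Subtype.ext
    apply RingOfIntegers.ext
    change g (x' : L) = (x' : L)
    rw [hx', hgx]

/-- **The splitting field of `X ^ m - X - 1` over a number field `k` of degree less than `m`.** -/
theorem exists_field (k : Type) [Field k] [NumberField k] (m : ℕ) (hm : 5 ≤ m)
    (hmk : finrank ℚ k < m) :
    ∃ (L : Type) (_ : Field L) (_ : NumberField L) (_ : Algebra k L), IsGalois k L ∧
      ∃ Φ : (L ≃ₐ[k] L) →* Equiv.Perm (Fin m), Function.Injective Φ ∧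
        alternatingGroup (Fin m) ≤ Φ.range ∧
        (∀ (P : Ideal (𝓞 L)) (_ : P.IsPrime) (g : L ≃ₐ[k] L), g ∈ P.inertia (L ≃ₐ[k] L) →
          Φ g = 1 ∨ (Φ g).IsSwap) ∧
        ∀ (φ : L →+* ℂ) (g : L ≃ₐ[k] L), ComplexEmbedding.IsConj φ g → ∃ i, Φ g i = i := by
  have hL : NumberField ((sel m).map (algebraMap ℤ k)).SplittingField :=
    NumberField.of_module_finite k _
  exact ⟨_, inferInstance, hL, inferInstance, field_main k m hm hmk _⟩

end Pool.Agent.H511.Ex
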