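import Pool.Agent.H511.Ex.Ind

/-!
# L-functions of nontrivial linear characters at `s = 1`, holomorphy for `Re s > 1`
-/

set_option autoImplicit false
set_option linter.unusedSectionVars false

namespace Pool.Agent.H511.Ex

open NumberField IsDedekindDomain Filter Topology Pool.Agent.H921R2.TatePole Pool.Agent.W353.NF
  Pool.Agent.Q5.BR Pool.Agent.H541R3.ART Pool.Agent.Q92.AR
open Pool.Agent.Q92.RT (induced)

section
variable {K F M : Type} [Field K] [NumberField K] [Field F] [NumberField F] [Field M] [NumberField M]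
  [Algebra K F] [Algebra K M] [Algebra F M] [IsScalarTower K F M] [IsGalois K M] [IsGalois F M]

theorem hol1_field (ψ : fixer K F M →* ℂˣ) (hne : ψ ≠ 1) :
    ∃ f : ℂ → ℂ, Continues f (artinL M (induced (fixer K F M) ψ)) ∧
      ∀ s : ℂ, 0 < s.re → AnalyticAt ℂ f s := by
  set ψ' : (M ≃ₐ[F] M) →* ℂˣ := ψ.comp (resF K F M) with hψ'
  obtain ⟨N, hN, hRam, hray⟩ := recip F M ψ'
  obtain ⟨f, hf1, hf2, hf3, -, hf4⟩ := hecke F N (art ψ') hN hray
  have hex : ∃ D ∈ Pr F N, art ψ' D ≠ 0 := by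
    classical
    obtain ⟨x, hx⟩ : ∃ x, ψ x ≠ 1 := by
      by_contra hcon
      push Not at hcon
      exact hne (MonoidHom.ext hcon)
    obtain ⟨g, rfl⟩ := resF_bijective.2 x
    obtain ⟨v, hv, hvu, hvg⟩ := Pool.Agent.Q14.AR.cheb F M g _ (mem_finite (F := F) hN)
    refine ⟨Finsupp.single v 1, ?_, ?_⟩
    · intro w hw
      rw [Finsupp.single_apply, if_neg]
      rintro rfl
      exact hv hw
    · rw [art_single, one_smul]
      intro h0
      apply hx
      have h1 : ψ' (frob M v) = 1 := h0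
      obtain ⟨z, hz⟩ := isFrobenius_conj hvu hvg (frob_spec v)
      change ψ' g = 1
      rw [← h1, hz, map_mul, map_mul, map_inv, mul_comm, mul_inv_cancel_left]
  have hf5 : AnalyticAt ℂ f 1 := hf4 hex
  have hχ : ∀ w : HeightOneSpectrum (𝓞 F), ‖((ψ' (frob M w) : ℂˣ) : ℂ)‖ ≤ 1 :=
    fun w => (norm_char ψ' _).le
  have he : ∀ w : HeightOneSpectrum (𝓞 F),
      (((art ψ' (Finsupp.single w 1)).toMul : ℂˣ) : ℂ) = ((ψ' (frob M w) : ℂˣ) : ℂ) := by
    intro w
    rw [art_single, one_smul]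
    rfl
  have h1 : ({w : HeightOneSpectrum (𝓞 F) | Unramified M (w.under (𝓞 K))} \
      {v : HeightOneSpectrum (𝓞 F) | (N : 𝓞 F) ∉ v.asIdeal}).Finite := by
    refine (mem_finite (F := F) hN).subset ?_
    rintro w ⟨-, hw⟩
    exact not_not.1 hw
  have h2 : ({v : HeightOneSpectrum (𝓞 F) | (N : 𝓞 F) ∉ v.asIdeal} \
      {w : HeightOneSpectrum (𝓞 F) | Unramified M (w.under (𝓞 K))}).Finite := by
    refine (ramified_above_finite (K := K) (F := F) (M := M)).subset ?_
    rintro w ⟨-, hw⟩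
    exact hw
  obtain ⟨E, hE1, hE2, hE3⟩ := LP_compare (χ := fun w => ((ψ' (frob M w) : ℂˣ) : ℂ))
    (χ' := fun w => (((art ψ' (Finsupp.single w 1)).toMul : ℂˣ) : ℂ)) h1 h2 hχ
    (fun w => by rw [he]; exact hχ w) (fun w _ => (he w).symm)
  refine ⟨fun s => E s * f s, ⟨fun s hs => (hE1 s hs).fun_mul (hf1 s hs), fun s hs => ?_⟩,
    fun s hs => (hE3 s hs).1.fun_mul ?_⟩
  · change E s * f s = _
    rw [artinL_induced ψ ψ' (fun y hy => rfl) hs, hE2 s hs, hf2 s hs, Lc_eq]
  · by_cases hs1 : s = 1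
    · rw [hs1]; exact hf5
    · exact hf3 s hs hs1

end

section
variable {K M : Type} [Field K] [NumberField K] [Field M] [NumberField M] [Algebra K M]
  [IsGalois K M]

/-- **The L-functions of the nontrivial linear characters of subgroups** are holomorphic for
`Re s > 0`. -/
theorem hol1 (H : Subgroup (M ≃ₐ[K] M)) (ψ : H →* ℂˣ) (hne : ψ ≠ 1) :
    ∃ f : ℂ → ℂ, Continues f (artinL M (induced H ψ)) ∧
      ∀ s : ℂ, 0 < s.re → AnalyticAt ℂ f s := by
  have h := fixer_fixedField (K := K) (M := M) H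
  have hgal : IsGalois (IntermediateField.fixedField H) M := inferInstance
  let ψ1 : fixer K (IntermediateField.fixedField H) M →* ℂˣ :=
    ψ.comp (Subgroup.inclusion (le_of_eq h))
  have h2 : induced (fixer K (IntermediateField.fixedField H) M) ψ1 = induced H ψ :=
    induced_congr h fun x hx hx' => rfl
  have h3 : ψ1 ≠ 1 := by
    intro h4
    apply hne
    ext x
    have h5 := DFunLike.congr_fun h4 ⟨x.1, by rw [h]; exact x.2⟩
    have h6 : ψ x = 1 := h5
    rw [h6]
    rfl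
  rw [← h2]
  exact hol1_field ψ1 h3

/-- The Artin L-functions are holomorphic for `Re s > 1`. -/
theorem artinL_analytic {χ : (M ≃ₐ[K] M) → ℂ} (hχ : χ ∈ Irr (M ≃ₐ[K] M)) {s : ℂ} (hs : 1 < s.re) :
    AnalyticAt ℂ (artinL M χ) s := by
  obtain ⟨ι, _, H, ψ, n, h⟩ := brauer _ χ hχ
  choose f hf hf2 using fun i => hol recip hecke (H i) (ψ i)
  have hopen : IsOpen {s : ℂ | 1 < s.re} := isOpen_lt continuous_const Complex.continuous_re
  have hev : ∀ᶠ z in 𝓝 s, z ∈ {s : ℂ | 1 < s.re} := hopen.mem_nhds hs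
  have h1 : χ = fun g => ∑ i, (n i : ℂ) * induced (H i) (ψ i) g := funext h
  have h2 : artinL M χ =ᶠ[𝓝 s] fun z => ∏ i, f i z ^ n i := by
    filter_upwards [hev] with z hz
    rw [h1, artinL_sum_int Finset.univ n (fun i => induced (H i) (ψ i)) hz]
    exact Finset.prod_congr rfl fun i _ => by rw [(hf i).2 z hz]
  refine AnalyticAt.congr ?_ h2.symm
  have hs1 : s ≠ 1 := by
    rintro rfl
    simp at hs
  refine Finset.analyticAt_fun_prod _ fun i _ => (hf2 i s (by linarith) hs1).fun_zpow ?_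
  rw [(hf i).2 s hs]
  exact artinL_ne_zero _ _

end

end Pool.Agent.H511.Ex
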