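import Pool.Agent.H511.Ex.Res

/-!
# Artin L-functions over intermediate fields, continued
-/

set_option autoImplicit false
set_option linter.unusedSectionVars false

namespace Pool.Agent.H511.Ex

open NumberField IsDedekindDomain Filter Topology Pool.Agent.H921R2.TatePole Pool.Agent.W353.NF
  Pool.Agent.Q5.BR Pool.Agent.H541R3.ART Pool.Agent.Q92.AR
open Pool.Agent.Q92.RT (induced induced_conj induced_pair class_expand)

section
variable {K F M : Type} [Field K] [NumberField K] [Field F] [NumberField F] [Field M] [NumberField M]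
  [Algebra K F] [Algebra K M] [Algebra F M] [IsScalarTower K F M]

/-- the inclusion of the group of `M/F` in the group of `M/K` -/
noncomputable def inc (K F M : Type) [Field K] [NumberField K] [Field F] [NumberField F] [Field M]
    [NumberField M] [Algebra K F] [Algebra K M] [Algebra F M] [IsScalarTower K F M] :
    (M ≃ₐ[F] M) →* (M ≃ₐ[K] M) where
  toFun y := y.restrictScalars K
  map_one' := rfl
  map_mul' _ _ := rfl

theorem inc_injective : Function.Injective (inc K F M) := by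
  intro a b h
  ext x
  exact DFunLike.congr_fun h x

variable [IsGalois K M] [IsGalois F M]

/-- **The L-function of a character of the group of `M/F`** is the product of the L-functions of the
irreducible characters `ψ` of the group of `M/K` to the powers `⟨ψ|, χ⟩`, up to finitely many Euler
factors. -/
theorem cmp_irr {χ : (M ≃ₐ[F] M) → ℂ} (hχ : χ ∈ Irr (M ≃ₐ[F] M)) (v : ((M ≃ₐ[K] M) → ℂ) → ℕ)
    (hv : ∀ ψ ∈ Irr (M ≃ₐ[K] M), ∑ᶠ g : M ≃ₐ[F] M, ψ (inc K F M g) * χ g⁻¹ =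
      (v ψ : ℂ) * (Nat.card (M ≃ₐ[F] M) : ℂ)) :
    Cmp (artinL M χ) (fun s => ∏ ψ ∈ irrF (M ≃ₐ[K] M), artinL M ψ s ^ v ψ) := by
  classical
  have fG : Fintype (M ≃ₐ[F] M) := Fintype.ofFinite _
  have fΓ : Fintype (M ≃ₐ[K] M) := Fintype.ofFinite _
  obtain ⟨ι, _, H, ψ, n, h⟩ := brauer _ χ hχ
  choose H' ψ' e hc he hψ using fun i => cmp_sub (K := K) (H i) (ψ i)
  have h1 : χ = fun g => ∑ i, (n i : ℂ) * induced (H i) (ψ i) g := funext h
  have h2 : Cmp (artinL M χ) (fun s => ∏ i, artinL M (induced (H i) (ψ i)) s ^ n i) := by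
    refine Cmp.of_eq fun s hs => ?_
    rw [h1, artinL_sum_int Finset.univ n (fun i => induced (H i) (ψ i)) hs]
  have h3 : Cmp (fun s => ∏ i, artinL M (induced (H i) (ψ i)) s ^ n i)
      (fun s => ∏ i, artinL M (induced (H' i) (ψ' i)) s ^ n i) :=
    Cmp.zprod Finset.univ _ _ n fun i _ => hc i
  refine h2.trans (h3.trans (Cmp.of_eq fun s hs => ?_))
  rw [← artinL_sum_int Finset.univ n (fun i => induced (H' i) (ψ' i)) hs,
    ← artinL_sum (irrF (M ≃ₐ[K] M)) v (fun ψ => ψ) hs]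
  congr 1
  funext g
  refine class_expand (m := fun ψ => (v ψ : ℂ)) (θ := fun g => ∑ i, (n i : ℂ) *
    induced (H' i) (ψ' i) g) (fun g x => ?_) (fun φ hφ => ?_) g
  · exact Finset.sum_congr rfl fun i _ => by rw [induced_conj]
  -- the multiplicities
  have hcl : ∀ g x : M ≃ₐ[K] M, φ (x * g * x⁻¹) = φ g := fun g x => Irr.conj hφ g x
  have hcl' : ∀ g x : M ≃ₐ[F] M, φ (inc K F M (x * g * x⁻¹)) = φ (inc K F M g) := by
    intro g x
    rw [map_mul, map_mul, map_inv, hcl]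
  let m : ι → ℂ := fun i => (∑ᶠ h : H i, φ (inc K F M h) * (((ψ i h)⁻¹ : ℂˣ) : ℂ)) /
    (Nat.card (H i) : ℂ)
  have hm : ∀ i, ∑ᶠ h : H i, φ (inc K F M h) * (((ψ i h)⁻¹ : ℂˣ) : ℂ) =
      m i * (Nat.card (H i) : ℂ) := by
    intro i
    have hne : (Nat.card (H i) : ℂ) ≠ 0 := by exact_mod_cast Nat.card_pos.ne'
    exact (div_mul_cancel₀ _ hne).symm
  have hm' : ∀ i, ∑ᶠ h : H' i, φ h * (((ψ' i h)⁻¹ : ℂˣ) : ℂ) = m i * (Nat.card (H' i) : ℂ) := by
    intro i
    rw [← Nat.card_congr (e i).toEquiv, ← hm i]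
    refine (finsum_eq_of_bijective (e i) (e i).bijective fun x => ?_).symm
    rw [hψ i x, he i x]
    rfl
  have h4 : ∀ i, ∑ g : M ≃ₐ[K] M, induced (H' i) (ψ' i) g * φ g⁻¹ = m i * Nat.card (M ≃ₐ[K] M) :=
    fun i => induced_pair (H' i) (ψ' i) hcl (hm' i)
  have h5 : ∀ i, ∑ g : M ≃ₐ[F] M, induced (H i) (ψ i) g * φ (inc K F M g⁻¹) =
      m i * Nat.card (M ≃ₐ[F] M) :=
    fun i => induced_pair (χ := fun g => φ (inc K F M g)) (H i) (ψ i) hcl' (hm i)
  have h6 : (v φ : ℂ) * (Nat.card (M ≃ₐ[F] M) : ℂ) = (∑ i, (n i : ℂ) * m i) *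
      (Nat.card (M ≃ₐ[F] M) : ℂ) := by
    rw [← hv φ hφ, finsum_eq_sum_of_fintype]
    have h7 : ∑ g : M ≃ₐ[F] M, φ (inc K F M g) * χ g⁻¹ =
        ∑ g : M ≃ₐ[F] M, χ g * φ (inc K F M g⁻¹) := by
      refine Fintype.sum_equiv (Equiv.inv (M ≃ₐ[F] M)) _ _ fun g => ?_
      simp only [Equiv.inv_apply, inv_inv]
      rw [mul_comm]
    rw [h7, Finset.sum_mul]
    have h8 : ∀ g : M ≃ₐ[F] M, χ g * φ (inc K F M g⁻¹) =
        ∑ i, (n i : ℂ) * (induced (H i) (ψ i) g * φ (inc K F M g⁻¹)) := by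
      intro g
      rw [h g, Finset.sum_mul]
      exact Finset.sum_congr rfl fun i _ => by rw [mul_assoc]
    rw [Finset.sum_congr rfl fun g _ => h8 g, Finset.sum_comm]
    refine Finset.sum_congr rfl fun i _ => ?_
    rw [← Finset.mul_sum, h5 i, mul_assoc]
  have hG : (Nat.card (M ≃ₐ[F] M) : ℂ) ≠ 0 := by exact_mod_cast Nat.card_pos.ne'
  have h9 : (v φ : ℂ) = ∑ i, (n i : ℂ) * m i := mul_right_cancel₀ hG h6
  rw [h9, Finset.sum_mul]
  have h10 : ∀ g : M ≃ₐ[K] M, (∑ i, (n i : ℂ) * induced (H' i) (ψ' i) g) * φ g⁻¹ =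
      ∑ i, (n i : ℂ) * (induced (H' i) (ψ' i) g * φ g⁻¹) := by
    intro g
    rw [Finset.sum_mul]
    exact Finset.sum_congr rfl fun i _ => by rw [mul_assoc]
  rw [Finset.sum_congr rfl fun g _ => h10 g, Finset.sum_comm]
  refine Finset.sum_congr rfl fun i _ => ?_
  rw [← Finset.mul_sum, h4 i, mul_assoc]

end

end Pool.Agent.H511.Ex
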