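import Pool.Agent.H511.Ex.Ind

/-!
# Unramified extensions and inertia groups
-/

set_option autoImplicit false

namespace Pool.Agent.H511.Ex

open NumberField IsDedekindDomain Pool.Agent.Q92.AR

/-- A Galois extension with trivial inertia groups is unramified. -/
theorem unram_of_inertia {F M : Type} [Field F] [NumberField F] [Field M] [NumberField M]
    [Algebra F M] [IsGalois F M]
    (h : ∀ P : Ideal (𝓞 M), P.IsPrime → ∀ g : M ≃ₐ[F] M, g ∈ P.inertia (M ≃ₐ[F] M) → g = 1)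
    (v : HeightOneSpectrum (𝓞 F)) : Unramified M v := by
  intro w hw hle
  have hlo : w.asIdeal.LiesOver v.asIdeal := ⟨by rw [← hw]; rfl⟩
  have hG : IsGaloisGroup (M ≃ₐ[F] M) (𝓞 F) (𝓞 M) := IsGaloisGroup.of_isFractionRing _ _ _ F M
  have hvm : v.asIdeal.IsMaximal := v.isMaximal
  have hvp : v.asIdeal.IsPrime := v.isPrime
  have hwp : w.asIdeal.IsPrime := w.isPrime
  have hf : Finite (𝓞 F ⧸ v.asIdeal) := Ring.HasFiniteQuotients.finiteQuotient v.ne_bot
  have h1 : Nat.card (w.asIdeal.inertia (M ≃ₐ[F] M)) = 1 := by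
    rw [Nat.card_eq_one_iff_unique]
    refine ⟨⟨fun a b => ?_⟩, ⟨1⟩⟩
    apply Subtype.ext
    rw [h _ hwp a.1 a.2, h _ hwp b.1 b.2]
  have h2 := Ideal.card_inertia_eq_ramificationIdxIn (G := M ≃ₐ[F] M) v.asIdeal w.asIdeal
  rw [h1, Ideal.ramificationIdxIn_eq_ramificationIdx v.asIdeal w.asIdeal (M ≃ₐ[F] M)] at h2
  have h3 : Ideal.ramificationIdx' v.asIdeal w.asIdeal = w.asIdeal.ramificationIdx (𝓞 F) :=
    Ideal.ramificationIdx'_eq_ramificationIdx _ _ v.ne_bot
  rw [← h3] at h2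
  have h4 : v.asIdeal.map (algebraMap (𝓞 F) (𝓞 M)) ≤ w.asIdeal := by
    rw [Ideal.map_le_iff_le_comap]
    exact hlo.over.le
  exact (Ideal.ramificationIdx'_ne_one_iff h4).2 hle h2.symm

end Pool.Agent.H511.Ex
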