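import Pool.Agent.H511.Ex.Core
import Pool.Agent.H511.Ex.Fld
import Pool.Agent.H511.Ex.Unr

/-!
# Every finite group: unramified extensions with holomorphic Artin L-functions
-/

set_option autoImplicit false
set_option linter.unusedSectionVars false

namespace Pool.Agent.H511.Ex

open NumberField IsDedekindDomain Filter Topology Pool.Agent.H921R2.TatePole Pool.Agent.W353.NF
  Pool.Agent.Q5.BR Pool.Agent.H302R2 Pool.Agent.H541R3.ART Pool.Agent.W446.AS Pool.Agent.Q92.AR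
  Pool.Agent.Y786.FR Equiv
open Pool.Agent.Q92.RT (induced)

section
variable {k L : Type} [Field k] [NumberField k] [Field L] [NumberField L] [Algebra k L] [IsGalois k L]

/-- the continuation in normal form -/
noncomputable def Lam (χ : (L ≃ₐ[k] L) → ℂ) : ℂ → ℂ :=
  toMeromorphicNFOn (cont (artinL L χ)) Set.univ

theorem Lam_mero (χ : (L ≃ₐ[k] L) → ℂ) : MeromorphicOn (Lam χ) Set.univ :=
  (meromorphicNFOn_toMeromorphicNFOn _ _).meromorphicOn

theorem Lam_eq {χ : (L ≃ₐ[k] L) → ℂ} (hχ : χ ∈ Irr (L ≃ₐ[k] L)) {s : ℂ} (hs : 1 < s.re) :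
    Lam χ s = artinL L χ s := by
  have hc := continues_irr hχ
  have hopen : IsOpen {s : ℂ | 1 < s.re} := isOpen_lt continuous_const Complex.continuous_re
  have hev : ∀ᶠ z in 𝓝 s, z ∈ {s : ℂ | 1 < s.re} := hopen.mem_nhds hs
  have h1 : cont (artinL L χ) =ᶠ[𝓝 s] artinL L χ := by
    filter_upwards [hev] with z hz
    exact hc.2 z hz
  have h2 : AnalyticAt ℂ (cont (artinL L χ)) s := (artinL_analytic hχ hs).congr h1.symm
  unfold Lam
  rw [toMeromorphicNFOn_eq_toMeromorphicNFAt hc.1 (Set.mem_univ s),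
    toMeromorphicNFAt_eq_self.2 h2.meromorphicNFAt, hc.2 s hs]

theorem Lam_order {χ : (L ≃ₐ[k] L) → ℂ} (hχ : χ ∈ Irr (L ≃ₐ[k] L)) (s : ℂ) :
    meromorphicOrderAt (Lam χ) s = meromorphicOrderAt (cont (artinL L χ)) s :=
  meromorphicOrderAt_toMeromorphicNFOn (continues_irr hχ).1 (Set.mem_univ s)

theorem Lam_analytic {χ : (L ≃ₐ[k] L) → ℂ} (hχ : χ ∈ Irr (L ≃ₐ[k] L)) {s : ℂ}
    (h : 0 ≤ meromorphicOrderAt (cont (artinL L χ)) s) : AnalyticAt ℂ (Lam χ) s := by
  rw [← Lam_order hχ] at h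
  exact ((meromorphicNFOn_toMeromorphicNFOn _ _)
    (Set.mem_univ s)).meromorphicOrderAt_nonneg_iff_analyticAt.1 h

/-- the order at `1` from a relation -/
theorem order_one {χ : (L ≃ₐ[k] L) → ℂ} (hχ : χ ∈ Irr (L ≃ₐ[k] L)) {k' : Type} [Field k']
    [NumberField k'] [Algebra k' L] [IsGalois k' L] {a l : ℕ}
    {H : Fin l → Subgroup (L ≃ₐ[k'] L)} {lam : ∀ i, H i →* ℂˣ} (ha : 0 < a)
    (h : Cmp (fun s => artinL L χ s ^ a) (fun s => ∏ i, artinL L (induced (H i) (lam i)) s))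
    (hne : ∀ i, lam i ≠ 1) : 0 ≤ meromorphicOrderAt (cont (artinL L χ)) 1 := by
  choose f hf hf2 using fun i => hol1 (H i) (lam i) (hne i)
  have hc := continues_irr hχ
  have h1 : Continues (fun s => cont (artinL L χ) s ^ a) (fun s => artinL L χ s ^ a) :=
    ⟨fun s hs => (hc.1 s hs).fun_pow _, fun s hs => by
      change cont (artinL L χ) s ^ a = artinL L χ s ^ a
      rw [hc.2 s hs]⟩
  have h2 : Continues (fun s => ∏ i, f i s) (fun s => ∏ i, artinL L (induced (H i) (lam i)) s) :=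
    ⟨fun s hs => MeromorphicAt.fun_prod fun i _ => (hf i).1 s hs, fun s hs =>
      Finset.prod_congr rfl fun i _ => (hf i).2 s hs⟩
  have h3 := h.order h1 h2 (s₀ := 1) (by norm_num)
  have h4 : AnalyticAt ℂ (fun s => ∏ i, f i s) 1 :=
    Finset.analyticAt_fun_prod _ fun i _ => hf2 i 1 (by norm_num)
  have h5 := h4.meromorphicOrderAt_nonneg
  rw [← h3] at h5
  have h6 : (fun s => cont (artinL L χ) s ^ a) = (cont (artinL L χ)) ^ a := rfl
  rw [h6, meromorphicOrderAt_pow (hc.1 1 (Set.mem_univ _))] at h5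
  have h7 := hc.order_ne_top (fun s _ => artinL_ne_zero χ s) 1
  obtain ⟨n, hn⟩ := WithTop.ne_top_iff_exists.1 h7
  rw [← hn] at h5 ⊢
  have h8 : (0 : ℤ) ≤ a * n := by exact_mod_cast h5
  have h9 : (0 : ℤ) ≤ n := by
    by_contra hlt
    push Not at hlt
    have : (a : ℤ) * n < 0 := mul_neg_of_pos_of_neg (by exact_mod_cast ha) hlt
    omega
  exact_mod_cast h9

end

/-- **Main theorem.** -/
theorem main (k : Type) [Field k] [NumberField k] (N n₀ : ℕ) (ε : ℝ) (hε : 0 < ε) :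
    ∃ (L : Type) (_ : Field L) (_ : NumberField L) (_ : Algebra k L), IsGalois k L ∧
      n₀ ≤ Module.finrank k L ∧ ∀ (G : Type) [Group G] [Finite G], Nat.card G ≤ N →
        ∃ K : IntermediateField k L, Nonempty ((L ≃ₐ[K] L) ≃* G) ∧
          (∀ v : HeightOneSpectrum (𝓞 K), Unramified L v) ∧ IsUnramifiedAtInfinitePlaces K L ∧
          (∀ χ ∈ Irr (L ≃ₐ[K] L), MeromorphicOn (Lam χ) Set.univ ∧
            (∀ s : ℂ, 1 < s.re → Lam χ s = artinL L χ s) ∧
            (∀ s : ℂ, 0 < s.re → (s ≠ 1 ∨ χ ≠ fun _ => 1) → AnalyticAt ℂ (Lam χ) s) ∧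
            ∃ (a l : ℕ) (H : Fin l → Subgroup (L ≃ₐ[k] L)) (lam : ∀ i, H i →* ℂˣ), 0 < a ∧
              Cmp (fun s => artinL L χ s ^ a)
                (fun s => ∏ i, artinL L (induced (H i) (lam i)) s) ∧
              (χ ≠ (fun _ => 1) → ∀ i, lam i ≠ 1)) ∧
          ∀ χ ∈ Irr (L ≃ₐ[K] L), χ ≠ (fun _ => 1) → ∀ χ' ∈ Irr (L ≃ₐ[K] L), ∀ s : ℂ,
            0 < s.re → s ≠ 1 → (analyticOrderNatAt (Lam χ) s : ℝ) * (χ' 1).re ≤
              (1 + ε) * (analyticOrderNatAt (Lam χ') s * (χ 1).re) := by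
  classical
  obtain ⟨m₀, hm₀, hcore⟩ := core N ε hε
  set m' : ℕ := m₀ * (N.factorial * (Module.finrank ℚ k + n₀ + 5)) with hm'
  have hm'5 : Module.finrank ℚ k + n₀ + 5 ≤ m' := by
    rw [hm']
    have h1 := Nat.factorial_pos N
    have h2 : 1 ≤ m₀ * N.factorial := Nat.mul_pos hm₀ h1
    calc Module.finrank ℚ k + n₀ + 5 ≤ (m₀ * N.factorial) * (Module.finrank ℚ k + n₀ + 5) :=
        Nat.le_mul_of_pos_left _ h2
      _ = _ := by ring
  have hdvd : m₀ ∣ m' := Dvd.intro _ rfl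
  have hpos : 0 < m' := by omega
  obtain ⟨L, iL, iN, iA, hgal, Φ, hΦ, halt, hiner, hconj⟩ :=
    exists_field k (2 * m') (by omega) (by omega)
  let e := MonoidHom.ofInjective hΦ
  let d : Perm (Fin m') →* Φ.range := (dbl m').codRestrict Φ.range fun σ => halt (dbl_mem m' σ)
  let j : Perm (Fin m') →* (L ≃ₐ[k] L) := e.symm.toMonoidHom.comp d
  have hj : ∀ σ, Φ (j σ) = dbl m' σ := by
    intro σ
    have h1 : ((e (e.symm (d σ)) : Φ.range) : Perm (Fin (2 * m'))) = dbl m' σ := by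
      rw [MulEquiv.apply_symm_apply]
      rfl
    exact h1
  have hjinj : Function.Injective j := by
    intro a b hab
    apply dbl_injective m'
    rw [← hj, ← hj, hab]
  refine ⟨L, iL, iN, iA, hgal, ?_, ?_⟩
  · have h1 : Nat.card (Perm (Fin m')) ≤ Nat.card (L ≃ₐ[k] L) :=
      Nat.card_le_card_of_injective j hjinj
    rw [Nat.card_perm, Nat.card_fin, IsGalois.card_aut_eq_finrank] at h1
    have h2 : m' ≤ m'.factorial := Nat.self_le_factorial m'
    omega
  intro G _ _ hG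
  obtain ⟨e0, he0⟩ := exists_freeHom G (m := m')
    ((Nat.dvd_factorial Nat.card_pos hG).trans
      ((Dvd.intro _ rfl : N.factorial ∣ N.factorial * (Module.finrank ℚ k + n₀ + 5)).trans
        (Dvd.intro_left _ rfl)))
  have hinj : Function.Injective (j.comp e0) := hjinj.comp (he0.inj hpos)
  let S : Subgroup (L ≃ₐ[k] L) := (j.comp e0).range
  let K : IntermediateField k L := IntermediateField.fixedField S
  have hS : fixer k K L = S := fixer_fixedField S
  let κ : (L ≃ₐ[K] L) ≃* G := (eF k K L).trans ((MulEquiv.subgroupCongr hS).trans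
    (MonoidHom.ofInjective hinj).symm)
  let ι : (L ≃ₐ[K] L) →* Perm (Fin m') := e0.comp κ.toMonoidHom
  have hι : FreeHom ι := by
    intro g hg x
    exact he0 (κ g) (fun h => hg (κ.injective (by rw [h, map_one]))) x
  have hji : ∀ g, j (ι g) = inc k K L g := by
    intro g
    have h1 : ((MonoidHom.ofInjective hinj ((MonoidHom.ofInjective hinj).symm
        ((MulEquiv.subgroupCongr hS) (eF k K L g))) : (j.comp e0).range) : L ≃ₐ[k] L) =
        inc k K L g := by
      rw [MulEquiv.apply_symm_apply]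
      rfl
    exact h1
  have hcard : Nat.card (L ≃ₐ[K] L) ≤ N := by
    rw [Nat.card_congr κ.toEquiv]
    exact hG
  obtain ⟨hC1, hC2⟩ := hcore m' hpos hdvd k K L j ι hι hcard hji
  have hnonneg : ∀ χ ∈ Irr (L ≃ₐ[K] L), ∀ s : ℂ, 0 < s.re → (s ≠ 1 ∨ χ ≠ fun _ => 1) →
      0 ≤ meromorphicOrderAt (cont (artinL L χ)) s := by
    intro χ hχ s h0 h1
    by_cases hs : s = 1
    · rw [hs]
      have hne : χ ≠ fun _ => 1 := h1.resolve_left fun h => h hs
      obtain ⟨a, l, H, lam, ha, h2, h3⟩ := hC1 χ hχ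
      exact order_one hχ ha h2 (h3 hne)
    · obtain ⟨o, ho, -⟩ := hC2 s h0 hs
      obtain ⟨h2, h3⟩ := ho χ hχ
      rw [h2]
      exact_mod_cast h3
  refine ⟨K, ⟨κ⟩, ?_, ?_, ?_, ?_⟩
  · refine unram_of_inertia fun P hP g hg => ?_
    have h1 : inc k K L g ∈ P.inertia (L ≃ₐ[k] L) := hg
    have h2 := hiner P hP _ h1
    rw [← hji, hj] at h2
    have h3 : dbl m' (ι g) = 1 := by
      rcases h2 with h2 | h2
      · exact h2
      · have h4 := dbl_mem m' (ι g)
        rw [Equiv.Perm.mem_alternatingGroup, h2.sign_eq] at h4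
        exact absurd h4 (by decide)
    have h5 : ι g = 1 := dbl_injective m' (by rw [h3, map_one])
    have h6 : j (ι g) = 1 := by rw [h5, map_one]
    rw [hji] at h6
    exact inc_injective (by rw [h6, map_one])
  · refine ⟨fun w => ?_⟩
    rw [← InfinitePlace.mk_embedding w, InfinitePlace.isUnramified_mk_iff_forall_isConj]
    intro g hg
    have h1 : ComplexEmbedding.IsConj w.embedding (inc k K L g) := hg
    obtain ⟨i, hi⟩ := hconj _ _ h1
    rw [← hji, hj] at hi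
    by_contra hne
    have h2 : ∀ x, ι g x ≠ x := hι g hne
    obtain ⟨⟨y, x⟩, rfl⟩ := finProdFinEquiv.surjective i
    change finProdFinEquiv ((Equiv.prodCongrRight fun _ : Fin 2 => ι g)
      (finProdFinEquiv.symm (finProdFinEquiv (y, x)))) = _ at hi
    rw [Equiv.symm_apply_apply] at hi
    have h3 := finProdFinEquiv.injective hi
    exact h2 x (congrArg Prod.snd h3)
  · intro χ hχ
    exact ⟨Lam_mero χ, fun s hs => Lam_eq hχ hs, fun s h0 h1 =>
      Lam_analytic hχ (hnonneg χ hχ s h0 h1), hC1 χ hχ⟩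
  · intro χ hχ hne χ' hχ' s h0 h1
    obtain ⟨o, ho, ho2⟩ := hC2 s h0 h1
    have hnat : ∀ φ ∈ Irr (L ≃ₐ[K] L), ((analyticOrderNatAt (Lam φ) s : ℕ) : ℝ) = o φ := by
      intro φ hφ
      have h2 := Lam_analytic hφ (hnonneg φ hφ s h0 (Or.inl h1))
      obtain ⟨h3, h4⟩ := ho φ hφ
      rw [← Lam_order hφ, h2.meromorphicOrderAt_eq] at h3
      have hnt : analyticOrderAt (Lam φ) s ≠ ⊤ := by
        intro h5
        rw [h5] at h3
        exact absurd h3 (by simp)
      obtain ⟨n, hn⟩ : ∃ n : ℕ, analyticOrderAt (Lam φ) s = n := by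
        obtain ⟨n, hn⟩ := ENat.ne_top_iff_exists.1 hnt
        exact ⟨n, hn.symm⟩
      unfold analyticOrderNatAt
      rw [hn] at h3 ⊢
      have h6 : ((n : ℤ) : WithTop ℤ) = (o φ : WithTop ℤ) := h3
      have h7 : (n : ℤ) = o φ := by exact_mod_cast h6
      rw [← h7]
      simp
    have h2 := ho2 χ hχ hne χ' hχ'
    rw [hnat χ hχ, hnat χ' hχ']
    exact h2

end Pool.Agent.H511.Ex
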