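import Pool.Graph.R_pool_sql_team_seeded_3997aac3.Q92.AR.All
import Pool.Graph.R_pool_sql_team_seeded_3997aac3.Q92.AR.Use

/-!
# Artin L-functions over intermediate fields

`K ⊆ F ⊆ M` number fields, `M/K` Galois. The L-function of a character `χ` of `Gal(M/F)` is, up to
factors which are holomorphic without zeros for `Re s > 0` (the Euler factors at the primes which
ramify in `M/K`), the product of the L-functions of the irreducible characters `ψ` of `Gal(M/K)` to the
powers `⟨ψ|, χ⟩`.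
-/

set_option autoImplicit false
set_option linter.unusedSectionVars false

namespace Pool.Agent.H511.Ex

open NumberField IsDedekindDomain Filter Topology Pool.Agent.H921R2.TatePole Pool.Agent.W353.NF
  Pool.Agent.Q5.BR Pool.Agent.H541R3.ART Pool.Agent.Q92.AR
open Pool.Agent.Q92.RT (induced induced_conj induced_pair class_expand)

/-- `f = E g` for `Re s > 1`, `E` meromorphic on the plane, holomorphic without zeros for
`Re s > 0`. -/
def Cmp (f g : ℂ → ℂ) : Prop :=
  ∃ E : ℂ → ℂ, MeromorphicOn E Set.univ ∧ (∀ s : ℂ, 1 < s.re → f s = E s * g s) ∧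
    ∀ s : ℂ, 0 < s.re → AnalyticAt ℂ E s ∧ E s ≠ 0

theorem Cmp.of_eq {f g : ℂ → ℂ} (h : ∀ s : ℂ, 1 < s.re → f s = g s) : Cmp f g :=
  ⟨fun _ => 1, fun _ _ => analyticAt_const.meromorphicAt, fun s hs => by rw [one_mul]; exact h s hs,
    fun _ _ => ⟨analyticAt_const, one_ne_zero⟩⟩

theorem Cmp.symm {f g : ℂ → ℂ} (h : Cmp f g) : Cmp g f := by
  obtain ⟨E, h1, h2, h3⟩ := h
  refine ⟨fun s => (E s)⁻¹, fun s hs => (h1 s hs).fun_inv, fun s hs => ?_, fun s hs => ?_⟩
  · rw [h2 s hs, inv_mul_cancel_left₀ (h3 s (by linarith)).2]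
  · exact ⟨(h3 s hs).1.fun_inv (h3 s hs).2, inv_ne_zero (h3 s hs).2⟩

theorem Cmp.trans {f g k : ℂ → ℂ} (h : Cmp f g) (h' : Cmp g k) : Cmp f k := by
  obtain ⟨E, h1, h2, h3⟩ := h
  obtain ⟨E', h1', h2', h3'⟩ := h'
  refine ⟨fun s => E s * E' s, fun s hs => (h1 s hs).fun_mul (h1' s hs), fun s hs => ?_,
    fun s hs => ⟨(h3 s hs).1.fun_mul (h3' s hs).1, mul_ne_zero (h3 s hs).2 (h3' s hs).2⟩⟩
  rw [h2 s hs, h2' s hs, mul_assoc]

theorem Cmp.zprod {ι : Type*} (T : Finset ι) (f g : ι → ℂ → ℂ) (n : ι → ℤ)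
    (h : ∀ i ∈ T, Cmp (f i) (g i)) :
    Cmp (fun s => ∏ i ∈ T, f i s ^ n i) (fun s => ∏ i ∈ T, g i s ^ n i) := by
  classical
  choose! E h1 h2 h3 using h
  refine ⟨fun s => ∏ i ∈ T, E i s ^ n i, fun s hs => ?_, fun s hs => ?_, fun s hs => ⟨?_, ?_⟩⟩
  · exact MeromorphicAt.fun_prod fun i hi => (h1 i hi s hs).fun_zpow _
  · rw [← Finset.prod_mul_distrib]
    exact Finset.prod_congr rfl fun i hi => by rw [h2 i hi s hs, mul_zpow]
  · exact Finset.analyticAt_fun_prod _ fun i hi => (h3 i hi s hs).1.fun_zpow (h3 i hi s hs).2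
  · exact Finset.prod_ne_zero_iff.2 fun i hi => zpow_ne_zero _ (h3 i hi s hs).2

theorem Cmp.order {f g F G : ℂ → ℂ} (h : Cmp f g) (hF : Continues F f) (hG : Continues G g)
    {s₀ : ℂ} (h0 : 0 < s₀.re) : meromorphicOrderAt F s₀ = meromorphicOrderAt G s₀ := by
  obtain ⟨E, h1, h2, h3⟩ := h
  have h4 : Continues (fun s => E s * G s) f := by
    refine ⟨fun s hs => (h1 s hs).fun_mul (hG.1 s hs), fun s hs => ?_⟩
    change E s * G s = _
    rw [h2 s hs, hG.2 s hs]
  rw [hF.order_eq h4 (fun _ _ => rfl) s₀]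
  obtain ⟨h5, h6⟩ := h3 s₀ h0
  rw [fun_meromorphicOrderAt_mul h5.meromorphicAt (hG.1 s₀ (Set.mem_univ _)),
    h5.meromorphicOrderAt_eq, h5.analyticOrderAt_eq_zero.2 h6]
  simp

section
variable {K F M : Type} [Field K] [NumberField K] [Field F] [NumberField F] [Field M] [NumberField M]
  [Algebra K F] [Algebra K M] [Algebra F M] [IsScalarTower K F M]

theorem resF_bijective : Function.Bijective (resF K F M) := by
  constructor
  · intro a b h
    have h1 : ((resF K F M a : fixer K F M) : M ≃ₐ[K] M) = (resF K F M b : fixer K F M) := by rw [h]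
    ext x
    exact DFunLike.congr_fun h1 x
  · rintro ⟨g, hg⟩
    refine ⟨{ g with commutes' := fun z => hg z }, ?_⟩
    apply Subtype.ext
    ext x
    rfl

/-- the group of `M/F` is the group `fixer K F M` -/
noncomputable def eF (K F M : Type) [Field K] [NumberField K] [Field F] [NumberField F] [Field M]
    [NumberField M] [Algebra K F] [Algebra K M] [Algebra F M] [IsScalarTower K F M] :
    (M ≃ₐ[F] M) ≃* fixer K F M :=
  MulEquiv.ofBijective (resF K F M) resF_bijective

theorem eF_coe (y : M ≃ₐ[F] M) : ((eF K F M y : fixer K F M) : M ≃ₐ[K] M) = y.restrictScalars K := rfl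

/-- the character of `fixer K F M` given by a character of the group of `M/F` -/
noncomputable def chF (K : Type) {F M : Type} [Field K] [NumberField K] [Field F] [NumberField F]
    [Field M] [NumberField M] [Algebra K F] [Algebra K M] [Algebra F M] [IsScalarTower K F M]
    (l : (M ≃ₐ[F] M) →* ℂˣ) : fixer K F M →* ℂˣ :=
  l.comp (eF K F M).symm.toMonoidHom

theorem chF_apply (l : (M ≃ₐ[F] M) →* ℂˣ) (y : M ≃ₐ[F] M)
    (hy : y.restrictScalars K ∈ fixer K F M) : chF K l ⟨y.restrictScalars K, hy⟩ = l y := by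
  have h : (⟨y.restrictScalars K, hy⟩ : fixer K F M) = eF K F M y := rfl
  unfold chF
  rw [h]
  simp

end

section
variable {K F F' M : Type} [Field K] [NumberField K] [Field F] [NumberField F] [Field F']
  [NumberField F'] [Field M] [NumberField M]
  [Algebra K F] [Algebra K M] [Algebra F M] [IsScalarTower K F M]
  [Algebra K F'] [Algebra F F'] [Algebra F' M] [IsScalarTower K F' M] [IsScalarTower F F' M]
  [IsScalarTower K F F']
  [IsGalois K M] [IsGalois F M] [IsGalois F' M]

/-- **The L-function of a linear character of the group of `M/F'` does not depend on the base field**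
(up to the Euler factors at finitely many primes). -/
theorem cmp_lin (l : (M ≃ₐ[F'] M) →* ℂˣ) :
    Cmp (artinL M (induced (fixer F F' M) (chF F l))) (artinL M (induced (fixer K F' M) (chF K l))) := by
  have hf1 : ({w : HeightOneSpectrum (𝓞 F') | Unramified M (w.under (𝓞 F))} \
      {w : HeightOneSpectrum (𝓞 F') | Unramified M (w.under (𝓞 K))}).Finite := by
    refine (ramified_above_finite (K := K) (F := F') (M := M)).subset ?_
    rintro w ⟨-, hw⟩
    exact hw
  have hf2 : ({w : HeightOneSpectrum (𝓞 F') | Unramified M (w.under (𝓞 K))} \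
      {w : HeightOneSpectrum (𝓞 F') | Unramified M (w.under (𝓞 F))}).Finite := by
    refine (ramified_above_finite (K := F) (F := F') (M := M)).subset ?_
    rintro w ⟨-, hw⟩
    exact hw
  have hχ : ∀ w : HeightOneSpectrum (𝓞 F'), ‖((l (frob M w) : ℂˣ) : ℂ)‖ ≤ 1 :=
    fun w => (norm_char l _).le
  obtain ⟨E, hE1, hE2, hE3⟩ := LP_compare (χ := fun w => ((l (frob M w) : ℂˣ) : ℂ))
    (χ' := fun w => ((l (frob M w) : ℂˣ) : ℂ)) hf1 hf2 hχ hχ (fun w _ => rfl)
  refine ⟨E, hE1, fun s hs => ?_, hE3⟩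
  rw [artinL_induced (chF F l) l (fun y hy => chF_apply l y hy) hs,
    artinL_induced (chF K l) l (fun y hy => chF_apply l y hy) hs, hE2 s hs]

end

section
variable {K F M : Type} [Field K] [NumberField K] [Field F] [NumberField F] [Field M] [NumberField M]
  [Algebra K F] [Algebra K M] [Algebra F M] [IsScalarTower K F M] [IsGalois K M] [IsGalois F M]

theorem cmp_sub (X : Subgroup (M ≃ₐ[F] M)) (ψ : X →* ℂˣ) :
    ∃ (X' : Subgroup (M ≃ₐ[K] M)) (ψ' : X' →* ℂˣ) (e : X ≃* X'),
      Cmp (artinL M (induced X ψ)) (artinL M (induced X' ψ')) ∧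
      (∀ x : X, ((e x : X') : M ≃ₐ[K] M) = (x : M ≃ₐ[F] M).restrictScalars K) ∧
      ∀ x : X, ψ' (e x) = ψ x := by
  have h := fixer_fixedField (K := F) (M := M) X
  let F' := IntermediateField.fixedField X
  have i1 : IsScalarTower K F' M := IsScalarTower.of_algebraMap_eq fun x => rfl
  have i2 : IsScalarTower F F' M := inferInstance
  have i3 : IsScalarTower K F F' := inferInstance
  have hgal : IsGalois F' M := inferInstance
  let e1 : X ≃* fixer F F' M := MulEquiv.subgroupCongr h.symm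
  let e2 : X ≃* (M ≃ₐ[F'] M) := e1.trans (eF F F' M).symm
  let l : (M ≃ₐ[F'] M) →* ℂˣ := ψ.comp e2.symm.toMonoidHom
  have h2 : induced (fixer F F' M) (chF F l) = induced X ψ := by
    refine induced_congr h fun x hx hx' => ?_
    change ψ (e2.symm ((eF F F' M).symm ⟨x, hx⟩)) = ψ ⟨x, hx'⟩
    congr 1
    change e1.symm ((eF F F' M) ((eF F F' M).symm ⟨x, hx⟩)) = _
    rw [MulEquiv.apply_symm_apply]
    rfl
  refine ⟨fixer K F' M, chF K l, e2.trans (eF K F' M), ?_, ?_, ?_⟩
  · rw [← h2]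
    exact cmp_lin (K := K) (F := F) (F' := F') (M := M) l
  · intro x
    have h3 : ((eF F F' M ((eF F F' M).symm (e1 x)) : fixer F F' M) : M ≃ₐ[F] M) = x := by
      rw [MulEquiv.apply_symm_apply]
      rfl
    rw [eF_coe] at h3
    change ((eF K F' M ((eF F F' M).symm (e1 x)) : fixer K F' M) : M ≃ₐ[K] M) = _
    rw [eF_coe, ← h3]
    rfl
  · intro x
    change ψ (e2.symm ((eF K F' M).symm (eF K F' M (e2 x)))) = _
    rw [MulEquiv.symm_apply_apply, MulEquiv.symm_apply_apply]

end

end Pool.Agent.H511.Ex
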