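import Pool.Agent.H511.Ex.Tw3

/-!
# Counting: finite unions of families
-/

set_option autoImplicit false
set_option linter.unusedSectionVars false

namespace Pool.Agent.H511.Ex

open Filter Topology Pool.Agent.R399.TW

/-- union bound -/
theorem count_le {ι : Type} (J : Finset ι) {N Q : ℕ} (Ni : ι → ℕ) (hN : ∀ i ∈ J, Ni i ∣ N)
    (S : (q : ℕ) → DirichletCharacter ℂ q → Prop)
    (Si : ι → (q : ℕ) → DirichletCharacter ℂ q → Prop)
    (h : ∀ (q : ℕ) (ξ : DirichletCharacter ℂ q), 2 ≤ q → Nat.Coprime q N → ξ.IsPrimitive →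
      S q ξ → ∃ i ∈ J, Si i q ξ) : count N Q S ≤ ∑ i ∈ J, count (Ni i) Q (Si i) := by
  classical
  unfold count
  have h1 : ∀ q ∈ (Finset.Icc 2 Q).filter (fun q => Nat.Coprime q N),
      {ξ : DirichletCharacter ℂ q | ξ.IsPrimitive ∧ S q ξ}.ncard ≤
      ∑ i ∈ J, {ξ : DirichletCharacter ℂ q | ξ.IsPrimitive ∧ Si i q ξ}.ncard := by
    intro q hq
    rw [Finset.mem_filter, Finset.mem_Icc] at hq
    have hne : NeZero q := ⟨by omega⟩
    refine le_trans (Set.ncard_le_ncard (t := ⋃ i ∈ J,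
      {ξ : DirichletCharacter ℂ q | ξ.IsPrimitive ∧ Si i q ξ}) ?_ (Set.toFinite _))
      (Finset.set_ncard_biUnion_le J _)
    rintro ξ ⟨hξ, hS⟩
    obtain ⟨i, hi, hSi⟩ := h q ξ hq.1.1 hq.2 hξ hS
    simp only [Set.mem_iUnion]
    exact ⟨i, hi, hξ, hSi⟩
  refine (Finset.sum_le_sum h1).trans ?_
  rw [Finset.sum_comm]
  refine Finset.sum_le_sum fun i hi => ?_
  refine Finset.sum_le_sum_of_subset fun q hq => ?_
  rw [Finset.mem_filter] at hq ⊢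
  exact ⟨hq.1, Nat.Coprime.coprime_dvd_right (hN i hi) hq.2⟩

/-- union bound for one modulus -/
theorem countq_le {ι : Type} (J : Finset ι) {q : ℕ} (hq : 2 ≤ q)
    (S : DirichletCharacter ℂ q → Prop) (Si : ι → DirichletCharacter ℂ q → Prop)
    (h : ∀ ξ : DirichletCharacter ℂ q, ξ.IsPrimitive → S ξ → ∃ i ∈ J, Si i ξ) :
    countq q S ≤ ∑ i ∈ J, countq q (Si i) := by
  classical
  unfold countq
  have hne : NeZero q := ⟨by omega⟩
  refine le_trans (Set.ncard_le_ncard (t := ⋃ i ∈ J,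
    {ξ : DirichletCharacter ℂ q | ξ.IsPrimitive ∧ Si i ξ}) ?_ (Set.toFinite _))
    (Finset.set_ncard_biUnion_le J _)
  rintro ξ ⟨hξ, hS⟩
  obtain ⟨i, hi, hSi⟩ := h ξ hξ hS
  simp only [Set.mem_iUnion]
  exact ⟨i, hi, hξ, hSi⟩

theorem ex2_mono {m m' : ℕ} (hm : m ≤ m') {δ : ℝ} (h0 : 0 ≤ δ) (h1 : δ ≤ 1 / 2) :
    ex2 m δ ≤ ex2 m' δ := by
  have hmr : (m : ℝ) ≤ m' := by exact_mod_cast hm
  have h2 : 0 ≤ 1 - 2 * δ := by linarith
  have h3 : 0 < 3 - δ := by linarith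
  have h5 : 0 < 5 - 2 * δ := by linarith
  have hm0 : (0 : ℝ) ≤ m := Nat.cast_nonneg m
  unfold ex2
  split_ifs with c1 c2 c2
  · gcongr
  · have hm3 : (m : ℝ) ≤ 3 := by exact_mod_cast c1
    have hm4 : (4 : ℝ) ≤ m' := by exact_mod_cast (by omega : 4 ≤ m')
    rw [div_le_div_iff₀ h3 h5]
    have e1 : (3 + (m + 1) * δ) * (5 - 2 * δ) ≤ (5 + 2 * m' * δ) * (3 - δ) := by
      have a1 : (3 + (m + 1) * δ) * (5 - 2 * δ) ≤ (3 + (3 + 1) * δ) * (5 - 2 * δ) := by gcongr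
      have a2 : (5 + 2 * 4 * δ) * (3 - δ) ≤ (5 + 2 * m' * δ) * (3 - δ) := by gcongr
      nlinarith
    have e2 := mul_le_mul_of_nonneg_left e1 (by linarith : (0 : ℝ) ≤ 2 * (1 - 2 * δ))
    linarith
  · omega
  · gcongr

theorem exists_pos_le {ι : Type} (J : Finset ι) (f : ι → ℝ) (hf : ∀ i ∈ J, 0 < f i) :
    ∃ κ : ℝ, 0 < κ ∧ ∀ i ∈ J, κ ≤ f i := by
  classical
  induction J using Finset.induction_on with
  | empty => exact ⟨1, one_pos, fun i hi => absurd hi (Finset.notMem_empty i)⟩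
  | insert a s ha ih =>
    obtain ⟨κ, h1, h2⟩ := ih fun i hi => hf i (Finset.mem_insert_of_mem hi)
    refine ⟨min κ (f a), lt_min h1 (hf a (Finset.mem_insert_self a s)), fun i hi => ?_⟩
    rcases Finset.mem_insert.1 hi with rfl | hi
    · exact min_le_right _ _
    · exact (min_le_left _ _).trans (h2 i hi)

section
variable {ι : Type} {J : Finset ι} {m N : ℕ} {d Ni : ι → ℕ}
  {L : ι → (q : ℕ) → DirichletCharacter ℂ q → ℂ → ℂ}

/-- the hypotheses: finitely many families of degree at most `m`, level dividing `N` -/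
structure Fams (J : Finset ι) (m N : ℕ) (d Ni : ι → ℕ)
    (L : ι → (q : ℕ) → DirichletCharacter ℂ q → ℂ → ℂ) : Prop where
  dvd : ∀ i ∈ J, Ni i ∣ N
  pos : ∀ i ∈ J, 1 ≤ d i
  le : ∀ i ∈ J, d i ≤ m
  fm : ∀ i ∈ J, Fm (d i) (Ni i) (L i)
  ne : ∀ i ∈ J, ∀ (q : ℕ) (ξ : DirichletCharacter ℂ q), 2 ≤ q → Nat.Coprime q N → ξ.IsPrimitive →
    ∀ s : ℂ, 1 < s.re → L i q ξ s ≠ 0

theorem Fams.dens (h : Fams J m N d Ni L) : ∃ C B : ℝ, ∀ (Q : ℕ) (δ T : ℝ), 1 ≤ Q → 0 ≤ δ →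
    δ ≤ 1 / 2 → 0 ≤ T → ∀ S : (q : ℕ) → DirichletCharacter ℂ q → Prop,
    (∀ (q : ℕ) (ξ : DirichletCharacter ℂ q), 2 ≤ q → Nat.Coprime q N → ξ.IsPrimitive →
      S q ξ → ∃ i ∈ J, Far (L i q ξ) δ T) → (count N Q S : ℝ) ≤
        C * (1 + T) ^ (2 * m + 1) * (1 + Real.log Q) ^ B * (Q : ℝ) ^ (ex2 m δ) := by
  classical
  choose! C B hC hB hd using fun i (hi : i ∈ J) => dens2 (h.fm i hi)
  refine ⟨∑ i ∈ J, C i, ∑ i ∈ J, B i, fun Q δ T hQ h0 h1 hT S hS => ?_⟩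
  have hq1 : (1 : ℝ) ≤ Q := by exact_mod_cast hQ
  have hl := Real.log_nonneg hq1
  have h2 : (count N Q S : ℝ) ≤
      ((∑ i ∈ J, count (Ni i) Q (fun q ξ => Far (L i q ξ) δ T) : ℕ) : ℝ) := by
    exact_mod_cast count_le J Ni h.dvd S (fun i q ξ => Far (L i q ξ) δ T) hS
  refine h2.trans ?_
  push_cast
  rw [Finset.sum_mul, Finset.sum_mul, Finset.sum_mul]
  refine Finset.sum_le_sum fun i hi => (hd i hi Q δ T hQ h0 h1 hT).trans ?_
  have a0 := hC i hi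
  have a1 : (1 + T) ^ (2 * d i + 1) ≤ (1 + T) ^ (2 * m + 1) :=
    pow_le_pow_right₀ (by linarith) (by have := h.le i hi; omega)
  have a2 : (1 + Real.log Q) ^ (B i) ≤ (1 + Real.log Q) ^ (∑ i ∈ J, B i) :=
    Real.rpow_le_rpow_of_exponent_le (by linarith) (Finset.single_le_sum (fun j hj => hB j hj) hi)
  have a3 : (Q : ℝ) ^ (ex2 (d i) δ) ≤ (Q : ℝ) ^ (ex2 m δ) :=
    Real.rpow_le_rpow_of_exponent_le hq1 (ex2_mono (h.le i hi) h0 h1)
  have b1 : (0 : ℝ) ≤ (1 + T) ^ (2 * d i + 1) := by positivity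
  gcongr

theorem Fams.any (h : Fams J m N d Ni L) {δ : ℝ} (h0 : 0 < δ) (h1 : 1 / 2 - 2 / (m : ℝ) < δ) :
    ∃ C κ : ℝ, 0 < κ ∧ ∀ (Q : ℕ) (T : ℝ), 1 ≤ Q → 0 ≤ T →
    ∀ S : (q : ℕ) → DirichletCharacter ℂ q → Prop,
    (∀ (q : ℕ) (ξ : DirichletCharacter ℂ q), 2 ≤ q → Nat.Coprime q N → ξ.IsPrimitive →
      S q ξ → ∃ i ∈ J, Far (L i q ξ) δ T) → (count N Q S : ℝ) ≤
        C * (1 + T) ^ (2 * m + 1) * (Q : ℝ) ^ (2 - κ) := by
  classical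
  have hδ : ∀ i ∈ J, 1 / 2 - 2 / (d i : ℝ) < δ := by
    intro i hi
    refine lt_of_le_of_lt ?_ h1
    have a1 : (0 : ℝ) < d i := by exact_mod_cast h.pos i hi
    have a2 : (d i : ℝ) ≤ m := by exact_mod_cast h.le i hi
    have a3 : 2 / (m : ℝ) ≤ 2 / (d i : ℝ) := by gcongr
    linarith
  choose! C κ hC hκ hd using fun i (hi : i ∈ J) => any_degree (h.fm i hi) h0 (hδ i hi)
  obtain ⟨κ₀, hκ₀, hle⟩ := exists_pos_le J κ hκ
  refine ⟨∑ i ∈ J, C i, κ₀, hκ₀, fun Q T hQ hT S hS => ?_⟩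
  have hq1 : (1 : ℝ) ≤ Q := by exact_mod_cast hQ
  have h2 : (count N Q S : ℝ) ≤
      ((∑ i ∈ J, count (Ni i) Q (fun q ξ => Far (L i q ξ) δ T) : ℕ) : ℝ) := by
    exact_mod_cast count_le J Ni h.dvd S (fun i q ξ => Far (L i q ξ) δ T) hS
  refine h2.trans ?_
  push_cast
  rw [Finset.sum_mul, Finset.sum_mul]
  refine Finset.sum_le_sum fun i hi => (hd i hi Q T hQ hT).trans ?_
  have a0 := hC i hi
  have a1 : (1 + T) ^ (2 * d i + 1) ≤ (1 + T) ^ (2 * m + 1) :=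
    pow_le_pow_right₀ (by linarith) (by have := h.le i hi; omega)
  have a3 : (Q : ℝ) ^ (2 - κ i) ≤ (Q : ℝ) ^ (2 - κ₀) :=
    Real.rpow_le_rpow_of_exponent_le hq1 (by have := hle i hi; linarith)
  have b1 : (0 : ℝ) ≤ (1 + T) ^ (2 * d i + 1) := by positivity
  gcongr

theorem Fams.anyOne (h : Fams J m N d Ni L) {δ : ℝ} (h0 : 0 < δ) (h1 : 1 / 2 - 1 / (m : ℝ) < δ) :
    ∃ C κ : ℝ, 0 < κ ∧ ∀ (q : ℕ) (T : ℝ), 2 ≤ q → Nat.Coprime q N → 0 ≤ T →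
    ∀ S : DirichletCharacter ℂ q → Prop,
    (∀ ξ : DirichletCharacter ℂ q, ξ.IsPrimitive → S ξ → ∃ i ∈ J, Far (L i q ξ) δ T) →
      (countq q S : ℝ) ≤ C * (1 + T) ^ (2 * m + 1) * (q : ℝ) ^ (1 - κ) := by
  classical
  have hδ : ∀ i ∈ J, 1 / 2 - 1 / (d i : ℝ) < δ := by
    intro i hi
    refine lt_of_le_of_lt ?_ h1
    have a1 : (0 : ℝ) < d i := by exact_mod_cast h.pos i hi
    have a2 : (d i : ℝ) ≤ m := by exact_mod_cast h.le i hi
    have a3 : 1 / (m : ℝ) ≤ 1 / (d i : ℝ) := by gcongr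
    linarith
  choose! C κ hC hκ hd using fun i (hi : i ∈ J) => any_degree_one (h.fm i hi) h0 (hδ i hi)
  obtain ⟨κ₀, hκ₀, hle⟩ := exists_pos_le J κ hκ
  refine ⟨∑ i ∈ J, C i, κ₀, hκ₀, fun q T hq hqN hT S hS => ?_⟩
  have hq1 : (1 : ℝ) ≤ q := by exact_mod_cast (by omega : 1 ≤ q)
  have h2 : (countq q S : ℝ) ≤
      ((∑ i ∈ J, countq q (fun ξ => Far (L i q ξ) δ T) : ℕ) : ℝ) := by
    exact_mod_cast countq_le J hq S (fun i ξ => Far (L i q ξ) δ T) hS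
  refine h2.trans ?_
  push_cast
  rw [Finset.sum_mul, Finset.sum_mul]
  refine Finset.sum_le_sum fun i hi =>
    (hd i hi q T hq (Nat.Coprime.coprime_dvd_right (h.dvd i hi) hqN) hT).trans ?_
  have a0 := hC i hi
  have a1 : (1 + T) ^ (2 * d i + 1) ≤ (1 + T) ^ (2 * m + 1) :=
    pow_le_pow_right₀ (by linarith) (by have := h.le i hi; omega)
  have a3 : (q : ℝ) ^ (1 - κ i) ≤ (q : ℝ) ^ (1 - κ₀) :=
    Real.rpow_le_rpow_of_exponent_le hq1 (by have := hle i hi; linarith)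
  have b1 : (0 : ℝ) ≤ (1 + T) ^ (2 * d i + 1) := by positivity
  gcongr

/-- monotonicity of `Off` -/
theorem off_mono {a a' : ℕ} {K K' : ℝ} {Q : ℕ} {F : ℂ → ℂ} (ha : a' ≤ a) (hK : K' ≤ K)
    (hQ : 1 ≤ Q) (hF : ∀ s : ℂ, 1 < s.re → F s ≠ 0) (h : Off a K Q F) : Off a' K' Q F := by
  obtain ⟨s, h0, h1, h2⟩ := h
  have hq1 : (1 : ℝ) ≤ Q := by exact_mod_cast hQ
  have hl := Real.log_nonneg hq1
  have h3 : s.re ≤ 1 := by
    by_contra h4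
    exact hF s (not_le.1 h4) h1
  have h4 : |s.re - 1 / 2| ≤ 1 := by
    rw [abs_le]
    constructor <;> linarith
  refine ⟨s, h0, h1, ?_⟩
  have h5 : |s.re - 1 / 2| ^ a ≤ |s.re - 1 / 2| ^ a' :=
    pow_le_pow_of_le_one (abs_nonneg _) h4 ha
  have h6 : 0 ≤ Real.log (1 + Real.log Q) + Real.log (2 + |s.im|) :=
    add_nonneg (Real.log_nonneg (by linarith))
      (Real.log_nonneg (by linarith [abs_nonneg s.im]))
  calc K' * (Real.log (1 + Real.log Q) + Real.log (2 + |s.im|))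
      ≤ K * (Real.log (1 + Real.log Q) + Real.log (2 + |s.im|)) :=
        mul_le_mul_of_nonneg_right hK h6
    _ < |s.re - 1 / 2| ^ a * Real.log Q := h2
    _ ≤ |s.re - 1 / 2| ^ a' * Real.log Q := mul_le_mul_of_nonneg_right h5 hl

theorem Fams.near (h : Fams J m N d Ni L) (hm : m ≤ 4) (k : ℝ) :
    ∃ K : ℝ, ∀ Q : ℕ, 1 ≤ Q → ∀ S : (q : ℕ) → DirichletCharacter ℂ q → Prop,
    (∀ (q : ℕ) (ξ : DirichletCharacter ℂ q), 2 ≤ q → Nat.Coprime q N → ξ.IsPrimitive →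
      S q ξ → ∃ i ∈ J, Off (if m ≤ 3 then 1 else 2) K Q (L i q ξ)) → (count N Q S : ℝ) ≤
        K * (Q : ℝ) ^ 2 / (1 + Real.log Q) ^ k := by
  classical
  have hi : ∀ i ∈ J, ∃ K : ℝ, 0 < K ∧ ∃ a : ℕ, a ≤ (if m ≤ 3 then 1 else 2) ∧ ∀ Q : ℕ, 1 ≤ Q →
      (count (Ni i) Q (fun q ξ => Off a K Q (L i q ξ)) : ℝ) ≤
        K * (Q : ℝ) ^ 2 / (1 + Real.log Q) ^ k := by
    intro i hi
    have hf := h.fm i hi
    have hle := h.le i hi
    by_cases h3 : d i ≤ 3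
    · obtain ⟨C, B, hC, hB, h4⟩ := near_three h3 hf
      have hm' : (d i : ℝ) ≤ 3 := by exact_mod_cast h3
      obtain ⟨K, hK, h5⟩ := almost_all (a := 1) (b := 2 * d i + 1)
        (c := 2 / 3 * (4 - (d i : ℝ))) le_rfl (by linarith) hC h4 k
      exact ⟨K, hK, 1, by split_ifs <;> norm_num, h5⟩
    · have h4 : d i = 4 := by omega
      have hm4 : ¬ m ≤ 3 := by omega
      rw [h4] at hf
      obtain ⟨C, B, hC, hB, h5⟩ := near_four hf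
      obtain ⟨K, hK, h6⟩ := almost_all (a := 2) (b := 9)
        (c := 4) (by norm_num) (by norm_num) hC h5 k
      exact ⟨K, hK, 2, by rw [if_neg hm4], h6⟩
  choose! Ki hKi a ha hd using hi
  refine ⟨∑ i ∈ J, Ki i, fun Q hQ S hS => ?_⟩
  have hq1 : (1 : ℝ) ≤ Q := by exact_mod_cast hQ
  have h2 : (count N Q S : ℝ) ≤
      ((∑ i ∈ J, count (Ni i) Q (fun q ξ => Off (a i) (Ki i) Q (L i q ξ)) : ℕ) : ℝ) := by
    exact_mod_cast count_le J Ni h.dvd S (fun i q ξ => Off (a i) (Ki i) Q (L i q ξ))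
      fun q ξ hq hqN hξ hSq => by
        obtain ⟨i, hi, h3⟩ := hS q ξ hq hqN hξ hSq
        exact ⟨i, hi, off_mono (ha i hi)
          (Finset.single_le_sum (fun j hj => (hKi j hj).le) hi) hQ
          (h.ne i hi q ξ hq hqN hξ) h3⟩
  refine h2.trans ?_
  push_cast
  rw [Finset.sum_mul, Finset.sum_div]
  exact Finset.sum_le_sum fun i hi => hd i hi Q hQ

end

end Pool.Agent.H511.Ex
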