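import Pool.Agent.H511.Ex.Tw5

/-!
# The alternating group of degree five
-/

set_option autoImplicit false
set_option linter.unusedSectionVars false

namespace Pool.Agent.H511.Ex

open Pool.Agent.H302R2 Equiv

section
variable {G : Type} [Group G] [Finite G] {θ : G → ℂ} {n : ℕ}

/-- the hypothesis for injective homomorphisms -/
theorem sum_of_hom (h : ∀ (H : Subgroup G) (ψ : H →* ℂˣ), H.index ≤ n →
    ∑ᶠ h : H, θ h * (((ψ h)⁻¹ : ℂˣ) : ℂ) = 0) {E : Type} [Group E] [Fintype E] (φ : E →* G)
    (hφ : Function.Injective φ) (hn : Nat.card G ≤ n * Nat.card E) (ψ : E →* ℂˣ) :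
    ∑ e : E, θ (φ e) * (((ψ e)⁻¹ : ℂˣ) : ℂ) = 0 := by
  classical
  let ε : E ≃* φ.range := MonoidHom.ofInjective hφ
  have hε : ∀ e, ((ε e : φ.range) : G) = φ e := fun e => rfl
  have : Fintype φ.range := Fintype.ofFinite _
  have hc : Nat.card φ.range = Nat.card E := (Nat.card_congr ε.toEquiv).symm
  have hi : φ.range.index ≤ n := by
    have h1 := φ.range.card_mul_index
    rw [hc] at h1
    have h2 : 0 < Nat.card E := Nat.card_pos
    refine Nat.le_of_mul_le_mul_left ?_ h2
    rw [h1, mul_comm]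
    exact hn
  have h2 := h φ.range (ψ.comp ε.symm.toMonoidHom) hi
  rw [finsum_eq_sum_of_fintype] at h2
  rw [← h2]
  refine Fintype.sum_equiv ε.toEquiv _ _ fun e => ?_
  change _ = θ ((ε e : φ.range) : G) * (((ψ (ε.symm (ε e)))⁻¹ : ℂˣ) : ℂ)
  rw [hε, MulEquiv.symm_apply_apply]

/-- if all linear characters have multiplicity zero, the sum over the commutator subgroup is zero -/
theorem sum_commutator {E : Type} [Group E] [Fintype E] [DecidablePred (· ∈ commutator E)]
    (f : E → ℂ)
    (h : ∀ ψ : E →* ℂˣ, ∑ e, f e * (((ψ e)⁻¹ : ℂˣ) : ℂ) = 0) :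
    ∑ e : E with e ∈ commutator E, f e = 0 := by
  classical
  have fA : Fintype (Abelianization E) := Fintype.ofFinite _
  have fA' : Fintype (Additive (Abelianization E)) := Fintype.ofFinite _
  let χ : AddChar (Additive (Abelianization E)) ℂ → (E →* ℂˣ) := fun ψ =>
    (ψ.toMonoidHom.toHomUnits : Abelianization E →* ℂˣ).comp Abelianization.of
  have hχ : ∀ (ψ : AddChar (Additive (Abelianization E)) ℂ) (e : E),
      (((χ ψ e)⁻¹ : ℂˣ) : ℂ) = ψ (Additive.ofMul (Abelianization.of e⁻¹)) := by
    intro ψ e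
    rw [← map_inv]
    rfl
  have h1 : ∑ ψ : AddChar (Additive (Abelianization E)) ℂ,
      ∑ e, f e * (((χ ψ e)⁻¹ : ℂˣ) : ℂ) = 0 := Finset.sum_eq_zero fun ψ _ => h (χ ψ)
  rw [Finset.sum_comm] at h1
  have h2 : ∀ e : E, ∑ ψ : AddChar (Additive (Abelianization E)) ℂ,
      f e * (((χ ψ e)⁻¹ : ℂˣ) : ℂ) =
      if e ∈ commutator E then f e * (Fintype.card (Additive (Abelianization E)) : ℂ) else 0 := by
    intro e
    rw [← Finset.mul_sum, Finset.sum_congr rfl fun ψ _ => hχ ψ e, AddChar.sum_apply_eq_ite]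
    have h3 : Additive.ofMul (Abelianization.of e⁻¹) = 0 ↔ e ∈ commutator E := by
      rw [ofMul_eq_zero, map_inv, inv_eq_one]
      exact QuotientGroup.eq_one_iff e
    by_cases h4 : e ∈ commutator E
    · rw [if_pos h4, if_pos (h3.2 h4)]
    · rw [if_neg h4, if_neg (fun h5 => h4 (h3.1 h5)), mul_zero]
  rw [Finset.sum_congr rfl fun e _ => h2 e, ← Finset.sum_filter, ← Finset.sum_mul] at h1
  refine (mul_eq_zero.1 h1).resolve_right ?_
  exact_mod_cast Fintype.card_ne_zero

end

/-! ### The dihedral group of order ten in the alternating group of degree five -/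

/-- the translation by `i` -/
def padd (i : Fin 5) : Perm (Fin 5) :=
  ⟨fun x => x + i, fun x => x - i, fun x => add_sub_cancel_right x _, fun x => sub_add_cancel x _⟩

/-- the reflection `x ↦ -x - i` -/
def pref (i : Fin 5) : Perm (Fin 5) :=
  ⟨fun x => -x - i, fun x => -x - i, fun x => by revert x i; decide, fun x => by revert x i; decide⟩

/-- the permutations of `ZMod 5` given by the dihedral group -/
def dperm : DihedralGroup 5 → Perm (Fin 5)
  | DihedralGroup.r i => padd i
  | DihedralGroup.sr i => pref i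

/-- the dihedral group of order ten in the alternating group -/
def dhom : DihedralGroup 5 →* alternatingGroup (Fin 5) where
  toFun x := ⟨dperm x, by
    rw [Equiv.Perm.mem_alternatingGroup]
    revert x
    decide⟩
  map_one' := by
    apply Subtype.ext
    decide
  map_mul' x y := by
    apply Subtype.ext
    revert x y
    decide

theorem dhom_injective : Function.Injective dhom := by
  rw [injective_iff_map_eq_one]
  decide

/-- the sign character -/
def dsgn : DihedralGroup 5 →* ℂˣ where
  toFun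
    | DihedralGroup.r _ => 1
    | DihedralGroup.sr _ => -1
  map_one' := rfl
  map_mul' x y := by
    cases x <;> cases y <;> simp [DihedralGroup.r_mul_r, DihedralGroup.r_mul_sr,
      DihedralGroup.sr_mul_r, DihedralGroup.sr_mul_sr]

theorem sr_conj (i : ZMod 5) : DihedralGroup.r (2 * i) * DihedralGroup.sr 0 *
    (DihedralGroup.r (2 * i))⁻¹ = (DihedralGroup.sr i : DihedralGroup 5) := by
  revert i
  decide

/-- the elements of cycle type `(2, 2)` are conjugate -/
theorem conj_two_two (g : alternatingGroup (Fin 5)) (hg : (g : Perm (Fin 5)).cycleType = {2, 2}) :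
    ∃ t : alternatingGroup (Fin 5), t * dhom (DihedralGroup.sr 0) * t⁻¹ = g := by
  have h1 : (pref 0).cycleType = {2, 2} := by decide
  have h2 : IsConj (pref 0) (g : Perm (Fin 5)) := Equiv.Perm.isConj_iff_cycleType_eq.2 (h1.trans hg.symm)
  obtain ⟨τ, hτ⟩ := isConj_iff.1 h2
  have h3 : swap (1 : Fin 5) 4 * pref 0 * (swap (1 : Fin 5) 4)⁻¹ = pref 0 := by decide
  rcases Int.units_eq_one_or (Equiv.Perm.sign τ) with h4 | h4
  · refine ⟨⟨τ, Equiv.Perm.mem_alternatingGroup.2 h4⟩, ?_⟩
    apply Subtype.ext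
    exact hτ
  · refine ⟨⟨τ * swap (1 : Fin 5) 4, Equiv.Perm.mem_alternatingGroup.2 ?_⟩, ?_⟩
    · rw [Equiv.Perm.sign_mul, h4, Equiv.Perm.sign_swap (by decide)]
      rfl
    · apply Subtype.ext
      change τ * swap (1 : Fin 5) 4 * pref 0 * (τ * swap (1 : Fin 5) 4)⁻¹ = g
      rw [mul_inv_rev, ← hτ]
      conv_rhs => rw [← h3]
      simp only [mul_assoc]

theorem detects_A5 : Detects (alternatingGroup (Fin 5)) 6 := by
  classical
  intro θ hθ h
  refine heilbronn_zero hθ ?_
  have hcard : Nat.card (alternatingGroup (Fin 5)) = 60 := by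
    have h1 := nat_card_alternatingGroup (α := Fin 5)
    rw [h1, Nat.card_eq_fintype_card, Fintype.card_fin]
    rfl
  -- the dihedral group
  have h1 := sum_of_hom h dhom dhom_injective (by
    rw [hcard, DihedralGroup.nat_card]) 1
  have h2 := sum_of_hom h dhom dhom_injective (by
    rw [hcard, DihedralGroup.nat_card]) dsgn
  have e1 : ∀ f : DihedralGroup 5 → ℂ, ∑ e, f e =
      ∑ i : ZMod 5, f (DihedralGroup.r i) + ∑ i : ZMod 5, f (DihedralGroup.sr i) := by
    intro f
    rw [← Equiv.sum_comp DihedralGroup.equivSum.symm f, Fintype.sum_sum_type]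
    rfl
  rw [e1] at h1 h2
  have h3 : ∑ i : ZMod 5, θ (dhom (DihedralGroup.sr i)) = 0 := by
    have a1 : ∀ i : ZMod 5, θ (dhom (DihedralGroup.sr i)) *
        (((dsgn (DihedralGroup.sr i))⁻¹ : ℂˣ) : ℂ) = -θ (dhom (DihedralGroup.sr i)) := by
      intro i
      have : dsgn (DihedralGroup.sr i) = -1 := rfl
      rw [this]
      simp
    have a2 : ∀ i : ZMod 5, θ (dhom (DihedralGroup.r i)) *
        (((dsgn (DihedralGroup.r i))⁻¹ : ℂˣ) : ℂ) = θ (dhom (DihedralGroup.r i)) := by
      intro i
      have : dsgn (DihedralGroup.r i) = 1 := rfl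
      rw [this]
      simp
    rw [Finset.sum_congr rfl fun i _ => a1 i, Finset.sum_congr rfl fun i _ => a2 i,
      Finset.sum_neg_distrib] at h2
    simp only [MonoidHom.one_apply, inv_one, Units.val_one, mul_one] at h1
    linear_combination (1 / 2 : ℂ) * h1 - (1 / 2 : ℂ) * h2
  have h4 : ∀ i : ZMod 5, θ (dhom (DihedralGroup.sr i)) = θ (dhom (DihedralGroup.sr 0)) := by
    intro i
    rw [← sr_conj i, map_mul, map_mul, map_inv, hθ.conj]
  rw [Finset.sum_congr rfl fun i _ => h4 i, Finset.sum_const, Finset.card_univ, ZMod.card,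
    nsmul_eq_mul] at h3
  have h5 : θ (dhom (DihedralGroup.sr 0)) = 0 :=
    (mul_eq_zero.1 h3).resolve_left (by norm_num)
  have h6 : ∀ g : alternatingGroup (Fin 5), (g : Perm (Fin 5)).cycleType = {2, 2} → θ g = 0 := by
    intro g hg
    obtain ⟨t, ht⟩ := conj_two_two g hg
    rw [← ht, hθ.conj, h5]
  -- the alternating group of degree four
  let s : Finset (Fin 5) := {0, 1, 2, 3}
  have hs : Nat.card s = 4 := by
    rw [Nat.card_eq_fintype_card]
    rfl
  have h7 : ∀ ψ : alternatingGroup s →* ℂˣ,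
      ∑ e, θ (alternatingGroup.ofSubtype s e) * (((ψ e)⁻¹ : ℂˣ) : ℂ) = 0 := fun ψ =>
    sum_of_hom h (alternatingGroup.ofSubtype s) alternatingGroup.ofSubtype_injective (by
      rw [hcard, alternatingGroup.card_of_card_eq_four hs]; norm_num) ψ
  have h8 := sum_commutator _ h7
  rw [Finset.sum_eq_single (1 : alternatingGroup s)] at h8
  · rwa [map_one] at h8
  · intro e he hne
    rw [Finset.mem_filter, ← alternatingGroup.kleinFour_eq_commutator hs] at he
    have he2 := SetLike.mem_coe.2 he.2
    rw [alternatingGroup.coe_kleinFour_of_card_eq_four hs] at he2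
    rcases he2 with he | he
    · exact absurd he hne
    · refine h6 _ ?_
      rw [alternatingGroup.coe_ofSubtype, Equiv.Perm.cycleType_ofSubtype]
      exact he
  · intro h9
    exact absurd (Finset.mem_filter.2 ⟨Finset.mem_univ _, Subgroup.one_mem _⟩) h9

/-- `Detects` only depends on the group up to isomorphism -/
theorem Detects.congr {G G' : Type} [Group G] [Finite G] [Group G'] [Finite G'] (ε : G' ≃* G)
    {n : ℕ} (h : Detects G n) : Detects G' n := by
  classical
  intro θ hθ hz g
  have h1 : IsHeilbronn (fun x : G => θ (ε.symm x)) := hθ.comp ε.symm.toMonoidHom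
  have h2 := h _ h1 (fun H ψ hH => ?_) (ε g)
  · simpa using h2
  have : Fintype H := Fintype.ofFinite H
  have h3 := sum_of_hom (n := n) hz (ε.symm.toMonoidHom.comp H.subtype)
    (ε.symm.injective.comp H.subtype_injective) (by
      rw [Nat.card_congr ε.toEquiv, ← H.card_mul_index, mul_comm]
      exact Nat.mul_le_mul_right _ hH) ψ
  rw [finsum_eq_sum_of_fintype]
  exact h3

end Pool.Agent.H511.Ex
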